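import Pool.Agent.Y767.HC.Ph0

/-! # The functional equation for primitive Hecke characters
(adapted from `Pool.Agent.Y773.HK.Ent`, `FeK` of helper773) -/

set_option autoImplicit false
set_option linter.unusedSectionVars false

open NumberField Complex Filter Topology MeasureTheory Set
open NumberField.Units NumberField.Units.dirichletUnitTheorem

namespace Pool.Agent.Y767

open Pool.Agent.Y773

variable {K : Type} [Field K] [NumberField K] [IsTotallyReal K]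

lemma IsModK.nice {𝔪 : Ideal (𝓞 K)} {e : InfinitePlace K → ℕ} {ν : InfinitePlace K → ℝ}
    {η : Ideal (𝓞 K) →*₀ ℂ} (he : ∀ w, e w ≤ 1)
    (h : IsModK 𝔪 (kk e ν) η) {𝔟 : Ideal (𝓞 K)} (h𝔟 : 𝔟 ≠ ⊥) :
    Nicen e ν (Pk η (kk e ν) 𝔟) where
  he := he
  bdd := ⟨1, norm_Pk_le h.kap h.norm_le_one 𝔟⟩
  zero := Pk_zero h𝔟
  unit u x := by
    rw [Pk_unit_smul h.kap h𝔟]
    rfl

lemma G0_zero {e : InfinitePlace K → ℕ} {w : InfinitePlace K} (hw : e w ≠ 0) :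
    G0 e (fun _ => (0 : ℝ)) = 0 := by
  unfold G0
  refine Finset.prod_eq_zero (Finset.mem_univ w) ?_
  unfold g0
  rw [zero_pow hw, zero_mul]

lemma IsModK.per_m {𝔪 : Ideal (𝓞 K)} {κ : K → ℂ} {η : Ideal (𝓞 K) →*₀ ℂ}
    (h : IsModK 𝔪 κ η) {𝔟 : Ideal (𝓞 K)} (h𝔟 : 𝔟 ≠ ⊥) {m : ℕ} (hm : (m : 𝓞 K) ∈ 𝔟 * 𝔪)
    (x z : 𝓞 K) : Pk η κ 𝔟 (x + m * z) = Pk η κ 𝔟 x := by
  refine h.per h𝔟 ?_
  rw [add_sub_cancel_left]
  exact Ideal.mul_mem_right _ _ hm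

lemma ax_zero (x : K) : ax (fun _ : InfinitePlace K => (0 : ℝ)) x = 1 := by
  unfold ax
  simp

lemma kk_zero (e : InfinitePlace K → ℕ) : (kk e (fun _ => (0 : ℝ)) : K → ℂ) = sg e := by
  funext x
  unfold kk
  have : (fun w : InfinitePlace K => -(fun _ => (0 : ℝ)) w) = fun _ => 0 := by
    funext w
    simp
  rw [this, ax_zero, mul_one]

/-- the constant term vanishes -/
lemma IsModK.const_zero {𝔪 : Ideal (𝓞 K)} {e : InfinitePlace K → ℕ} {ν : InfinitePlace K → ℝ}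
    {η : Ideal (𝓞 K) →*₀ ℂ} (he : ∀ w, e w ≤ 1) (hν : ∑ w, ν w = 0)
    (h : IsModK 𝔪 (kk e ν) η) (hn : ν ≠ 0 ∨ ∃ 𝔞, IsCoprime 𝔞 𝔪 ∧ η 𝔞 ≠ 1) {D : ℕ} (hD : 0 < D) :
    ((G0 e (fun _ => 0) : ℝ) : ℂ) * Ph K (fun w => -ν w) *
        (∑ c, (Ideal.absNorm (rp K c) : ℂ) *
          FT D (mm (rp K) 𝔪) (Pk η (kk e ν) (rp K c)) 0) = 0 := by
  classical
  by_cases he0 : ∃ w, e w ≠ 0
  · obtain ⟨w, hw⟩ := he0
    rw [G0_zero hw, Complex.ofReal_zero, zero_mul, zero_mul]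
  push Not at he0
  by_cases hν0 : ν = 0
  · -- finite order
    have hn' : ∃ 𝔞, IsCoprime 𝔞 𝔪 ∧ η 𝔞 ≠ 1 := hn.resolve_left (fun h => h hν0)
    have hν1 : ν = fun _ => 0 := hν0
    subst hν1
    rw [kk_zero] at h ⊢
    have hM : IsModChar 𝔪 e η := {
      ne_bot := h.ne_bot
      ne_top := h.ne_top
      sig_le := he
      supp := h.supp
      sig := fun x hx hx1 => by
        have h1 := h.sig x hx hx1
        have h2 := sg_sq e (x := (x : K)) (by exact_mod_cast hx)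
        calc η (Ideal.span {x}) = η (Ideal.span {x}) * (sg e (x : K) * sg e (x : K)) := by
              rw [h2, mul_one]
          _ = (η (Ideal.span {x}) * sg e (x : K)) * sg e (x : K) := by ring
          _ = _ := by rw [h1, one_mul] }
    have h3 := hM.const_zero hn' (D := D)
    have h4 : ∀ c, Pk η (sg e) (rp K c) = Ps η e (rp K c) := fun c => rfl
    simp_rw [h4]
    rw [mul_right_comm, h3, zero_mul]
  · rcases unit_or_Ph hν hν0 with ⟨u, hu⟩ | h1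
    · have h2 : ∀ c, FT D (mm (rp K) 𝔪) (Pk η (kk e ν) (rp K c)) 0 = 0 := by
        intro c
        have hE := FT_eqvn (h.nice he (rp_ne_bot c)).unit (mm_pos rp_ne_bot h.ne_bot) hD
          (h.per_m (rp_ne_bot c) (mm_mem _ _ c))
        have h3 := hE u 0
        rw [mul_zero] at h3
        have h4 : sg e ((u : 𝓞 K) : K) = 1 := by
          unfold sg
          refine Finset.prod_eq_one fun w _ => ?_
          rw [he0 w, pow_zero]
        have h5 : ax (fun w => -(fun w => -ν w) w) ((u : 𝓞 K) : K) = ax ν ((u : 𝓞 K) : K) := by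
          congr 1
          funext w
          exact neg_neg _
        rw [h4, h5, one_mul] at h3
        have h6 : (1 - ax ν ((u : 𝓞 K) : K)) *
            FT D (mm (rp K) 𝔪) (Pk η (kk e ν) (rp K c)) 0 = 0 := by
          linear_combination h3
        exact (mul_eq_zero.mp h6).resolve_left (sub_ne_zero.mpr (Ne.symm hu))
      simp_rw [h2]
      simp
    · rw [h1, mul_zero, zero_mul]

/-- the product of the gamma factors inverted is entire -/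
lemma differentiable_gamn (e : InfinitePlace K → ℕ) (ν : InfinitePlace K → ℝ) :
    Differentiable ℂ fun s : ℂ => ∏ w, (Complex.Gammaℝ (s - I * ν w + e w))⁻¹ := by
  classical
  refine Differentiable.fun_finsetProd fun w _ => ?_
  exact Complex.differentiable_Gammaℝ_inv.comp ((differentiable_id.sub_const _).add_const _)

lemma gamn_ne_zero (e : InfinitePlace K → ℕ) (ν : InfinitePlace K → ℝ) {s : ℂ} (hs : 0 < s.re) :
    ∏ w, Complex.Gammaℝ (s - I * ν w + e w) ≠ 0 := by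
  refine Finset.prod_ne_zero_iff.mpr fun w _ => ?_
  refine Complex.Gammaℝ_ne_zero_of_re_pos ?_
  simp only [add_re, sub_re, mul_re, I_re, I_im, ofReal_re, ofReal_im, natCast_re]
  have : (0 : ℝ) ≤ e w := Nat.cast_nonneg _
  linarith

lemma gamn_ne_zero' (e : InfinitePlace K → ℕ) (ν : InfinitePlace K → ℝ) {s : ℂ}
    (hs : ∀ w, s.im - ν w ≠ 0) :
    ∏ w, Complex.Gammaℝ (s - I * ν w + e w) ≠ 0 := by
  refine Finset.prod_ne_zero_iff.mpr fun w _ => ?_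
  rw [Ne, Complex.Gammaℝ_eq_zero_iff]
  rintro ⟨n, hn⟩
  apply hs w
  have := congrArg Complex.im hn
  simpa using this

/-- **Entire continuation** -/
theorem LI_entiren {𝔪 : Ideal (𝓞 K)} {e : InfinitePlace K → ℕ} {ν : InfinitePlace K → ℝ}
    {η : Ideal (𝓞 K) →*₀ ℂ} (he : ∀ w, e w ≤ 1) (hν : ∑ w, ν w = 0)
    (h : IsModK 𝔪 (kk e ν) η) (hn : ν ≠ 0 ∨ ∃ 𝔞, IsCoprime 𝔞 𝔪 ∧ η 𝔞 ≠ 1) :
    ∃ F : ℂ → ℂ, Differentiable ℂ F ∧ ∀ s : ℂ, 1 < s.re → F s = LI η s := by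
  obtain ⟨V, hV, hfe⟩ := fam_fen K
  obtain ⟨C, hC, hmel⟩ := mellin_Ftotn K
  have hN : ∀ c, Nicen e ν (Pk η (kk e ν) (rp K c)) := fun c => h.nice he (rp_ne_bot c)
  obtain ⟨h1, h2, -⟩ := hfe (rp K) reps_rp e ν hν η hN (mm (rp K) 𝔪) (Dd K)
    (mm_pos rp_ne_bot h.ne_bot)
    Dd_pos Dd_mem (fun c => h.per_m (rp_ne_bot c) (mm_mem _ _ c)) (h.const_zero he hν hn Dd_pos)
  refine ⟨fun s => (C : ℂ)⁻¹ * (mellin (Ftotn η e ν (rp K)) s *
    ∏ w, (Complex.Gammaℝ (s - I * ν w + e w))⁻¹),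
    (h2.mul (differentiable_gamn e ν)).const_mul _, fun s hs => ?_⟩
  simp only
  rw [(hmel (rp K) reps_rp e ν η h.norm_le_one hN s hs).2, Finset.prod_inv_distrib]
  have h3 := gamn_ne_zero e (K := K) ν (s := s) (by linarith)
  have hC' : (C : ℂ) ≠ 0 := by exact_mod_cast hC.ne'
  field_simp

lemma hfn_conj (e : InfinitePlace K → ℕ) (ν : InfinitePlace K → ℝ) (Ψ : 𝓞 K → ℂ) (a : ℂ) (t : ℝ) :
    hfn e (fun w => -ν w) (fun x => a * (starRingEnd ℂ) (Ψ x)) t =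
      a * (starRingEnd ℂ) (hfn e ν Ψ t) := by
  unfold hfn
  have h1 : ∀ y : InfinitePlace K → ℝ, ph (fun w => -ν w) y = (starRingEnd ℂ) (ph ν y) := by
    intro y
    unfold ph
    rw [← Complex.exp_conj]
    congr 1
    have : (∑ w, -ν w * y w : ℝ) = -(∑ w, ν w * y w) := by
      rw [← Finset.sum_neg_distrib]
      exact Finset.sum_congr rfl fun w _ => by ring
    rw [this]
    simp [map_ofNat]
  simp_rw [th_conj, h1]
  have h2 : ∀ θ : Fin (rank K) → ℝ,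
      a * (starRingEnd ℂ) (th e Ψ (el K ((2 / Module.finrank ℚ K) * Real.log t, θ))) *
        (starRingEnd ℂ) (ph ν (el K ((2 / Module.finrank ℚ K) * Real.log t, θ))) =
      a * (starRingEnd ℂ) (th e Ψ (el K ((2 / Module.finrank ℚ K) * Real.log t, θ)) *
        ph ν (el K ((2 / Module.finrank ℚ K) * Real.log t, θ))) := by
    intro θ
    rw [map_mul]
    ring
  simp_rw [h2]
  rw [integral_const_mul]
  congr 1
  exact integral_conj

/-- the dual function in terms of the original one -/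
lemma Gtotn_eq {𝔣 : Ideal (𝓞 K)} {ψ : Ideal (𝓞 K) →*₀ ℂ} {e : InfinitePlace K → ℕ}
    {ν : InfinitePlace K → ℝ}
    (h : IsModK 𝔣 (kk e ν) ψ) {𝔟 𝔟' : ClassGroup (𝓞 K) → Ideal (𝓞 K)}
    (h𝔟 : Reps 𝔟) (h𝔟' : Reps 𝔟') {m D : ℕ}
    (hid : ∀ c, 𝔟' c * (𝔟 c * 𝔣 * differentIdeal ℤ (𝓞 K)) = Ideal.span {((m * D : ℕ) : 𝓞 K)})
    {τ : ℂ} (hτ : ∀ c x, FT D m (Pk ψ (kk e ν) (𝔟 c)) x = τ * ((m : ℂ) ^ (Module.finrank ℚ K) /
          ((Ideal.absNorm (𝔟 c) : ℂ) * (Ideal.absNorm 𝔣 : ℂ))) *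
            (starRingEnd ℂ) (Pk ψ (kk e ν) (𝔟' c) x))
    (t : ℝ) : Gtotn ψ e ν 𝔟 m D t = (τ * ((m : ℂ) ^ (Module.finrank ℚ K) / (Ideal.absNorm 𝔣 : ℂ))) *
      (starRingEnd ℂ) (Ftotn ψ e ν 𝔟'
        (((Ideal.absNorm 𝔣 * Ideal.absNorm (differentIdeal ℤ (𝓞 K)) : ℕ) : ℝ)⁻¹ * t)) := by
  have h𝔡 : differentIdeal ℤ (𝓞 K) ≠ ⊥ := differentIdeal_ne_bot
  unfold Gtotn Ftotn
  rw [map_sum, Finset.mul_sum]
  refine Finset.sum_congr rfl fun c _ => ?_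
  have hNb : (Ideal.absNorm (𝔟 c) : ℂ) ≠ 0 := by
    exact_mod_cast (fun h1 => h𝔟.ne_bot c (Ideal.absNorm_eq_zero_iff.mp h1))
  have hNbR : (Ideal.absNorm (𝔟 c) : ℝ) ≠ 0 := by
    exact_mod_cast (fun h1 => h𝔟.ne_bot c (Ideal.absNorm_eq_zero_iff.mp h1))
  have hNb'R : (Ideal.absNorm (𝔟' c) : ℝ) ≠ 0 := by
    exact_mod_cast (fun h1 => h𝔟'.ne_bot c (Ideal.absNorm_eq_zero_iff.mp h1))
  have hNfR : (Ideal.absNorm 𝔣 : ℝ) ≠ 0 := by
    exact_mod_cast (fun h1 => h.ne_bot (Ideal.absNorm_eq_zero_iff.mp h1))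
  have hNf : (Ideal.absNorm 𝔣 : ℂ) ≠ 0 := by
    exact_mod_cast (fun h1 => h.ne_bot (Ideal.absNorm_eq_zero_iff.mp h1))
  have hNdR : (Ideal.absNorm (differentIdeal ℤ (𝓞 K)) : ℝ) ≠ 0 := by
    exact_mod_cast (fun h1 => h𝔡 (Ideal.absNorm_eq_zero_iff.mp h1))
  have h1 : rz (FT D m (Pk ψ (kk e ν) (𝔟 c))) = fun x => (τ * ((m : ℂ) ^ (Module.finrank ℚ K) /
          ((Ideal.absNorm (𝔟 c) : ℂ) * (Ideal.absNorm 𝔣 : ℂ)))) *
            (starRingEnd ℂ) (Pk ψ (kk e ν) (𝔟' c) x) := by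
    funext x
    unfold rz
    split_ifs with hx
    · rw [hx, Pk_zero (h𝔟'.ne_bot c), map_zero, mul_zero]
    · exact hτ c x
  have h2 : t * (Ideal.absNorm (𝔟 c) : ℝ) / ((m * D : ℕ) : ℝ) ^ (Module.finrank ℚ K) =
      (Ideal.absNorm (𝔟' c) : ℝ)⁻¹ *
        (((Ideal.absNorm 𝔣 * Ideal.absNorm (differentIdeal ℤ (𝓞 K)) : ℕ) : ℝ)⁻¹ * t) := by
    have h3 := congrArg Ideal.absNorm (hid c)
    rw [map_mul, map_mul, map_mul, absNorm_span_nat] at h3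
    have h4 : ((m * D : ℕ) : ℝ) ^ (Module.finrank ℚ K) = (Ideal.absNorm (𝔟' c) : ℝ) *
        ((Ideal.absNorm (𝔟 c) : ℝ) * (Ideal.absNorm 𝔣 : ℝ) *
          (Ideal.absNorm (differentIdeal ℤ (𝓞 K)) : ℝ)) := by exact_mod_cast h3.symm
    rw [h4]
    push_cast
    field_simp
  rw [h1, h2, hfn_conj]
  field_simp

/-- **The functional equation for primitive Hecke characters** -/
theorem fe_primn {𝔣 : Ideal (𝓞 K)} {ψ : Ideal (𝓞 K) →*₀ ℂ} {e : InfinitePlace K → ℕ}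
    {ν : InfinitePlace K → ℝ} (he : ∀ w, e w ≤ 1) (hν : ∑ w, ν w = 0)
    (hp : PrimK 𝔣 (kk e ν) ψ) (h : IsModK 𝔣 (kk e ν) ψ) :
    ∃ F : ℂ → ℂ, FEn (((Ideal.absNorm 𝔣 * Ideal.absNorm (differentIdeal ℤ (𝓞 K)) : ℕ) : ℝ)) e
      (fun w => -ν w) F ∧ ∀ s : ℂ, 1 < s.re → F s = LI ψ s := by
  classical
  have h𝔡 : differentIdeal ℤ (𝓞 K) ≠ ⊥ := differentIdeal_ne_bot
  obtain ⟨V, hV, hfe⟩ := fam_fen K
  obtain ⟨C, hC, hmel⟩ := mellin_Ftotn K
  obtain ⟨τ, hτ⟩ := gauss_maink 𝔣 ψ (kk e ν) hp h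
  have hD0 : 0 < Dd K := Dd_pos
  -- the constant term
  have hz : ∀ 𝔟 : ClassGroup (𝓞 K) → Ideal (𝓞 K), Reps 𝔟 →
      ((G0 e (fun _ => 0) : ℝ) : ℂ) * Ph K (fun w => -ν w) *
        (∑ c, (Ideal.absNorm (𝔟 c) : ℂ) * FT (Dd K) (mm 𝔟 𝔣) (Pk ψ (kk e ν) (𝔟 c)) 0) = 0 := by
    intro 𝔟 h𝔟
    have : ∀ c, FT (Dd K) (mm 𝔟 𝔣) (Pk ψ (kk e ν) (𝔟 c)) 0 = 0 := by
      intro c
      obtain ⟨𝔟'', h𝔟''⟩ := exists_compl (𝔣 := 𝔣) (𝔟 := 𝔟 c) (m := mm 𝔟 𝔣) (D := Dd K)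
        (mm_mem _ _ c) Dd_mem
      rw [hτ (𝔟 c) 𝔟'' (mm 𝔟 𝔣) (Dd K) (mm_pos h𝔟.ne_bot h.ne_bot) hD0 h𝔟'' (mm_mem _ _ c) Dd_mem]
      have h5 : 𝔟'' ≠ ⊥ := by
        rintro rfl
        rw [Ideal.bot_mul] at h𝔟''
        exact span_m_ne_bot (Nat.mul_pos (mm_pos h𝔟.ne_bot h.ne_bot) hD0) h𝔟''.symm
      rw [Pk_zero h5, map_zero, mul_zero]
    simp_rw [this]
    simp
  set m := mm (rp K) 𝔣 with hm
  set D := Dd K with hD
  have hm0 : 0 < m := mm_pos rp_ne_bot h.ne_bot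
  have hN : ∀ c, Nicen e ν (Pk ψ (kk e ν) (rp K c)) := fun c => h.nice he (rp_ne_bot c)
  obtain ⟨h1, h2, h3⟩ := hfe (rp K) reps_rp e ν hν ψ hN m D hm0
    hD0 Dd_mem (fun c => h.per_m (rp_ne_bot c) (mm_mem _ _ c)) (hz _ reps_rp)
  choose 𝔟' h𝔟' using fun c => exists_compl (𝔣 := 𝔣) (𝔟 := rp K c) (m := m) (D := D)
    (mm_mem _ _ c) Dd_mem
  have hR' : Reps 𝔟' := reps_compl h.ne_bot reps_rp (Nat.mul_pos hm0 hD0) h𝔟'
  have hN' : ∀ c, Nicen e ν (Pk ψ (kk e ν) (𝔟' c)) := fun c => h.nice he (hR'.ne_bot c)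
  set R : ℝ := ((Ideal.absNorm 𝔣 * Ideal.absNorm (differentIdeal ℤ (𝓞 K)) : ℕ) : ℝ) with hRdef
  have hR1 : 1 ≤ R := by
    rw [hRdef]
    have h4 : Ideal.absNorm 𝔣 * Ideal.absNorm (differentIdeal ℤ (𝓞 K)) ≠ 0 :=
      mul_ne_zero (fun h1 => h.ne_bot (Ideal.absNorm_eq_zero_iff.mp h1))
        (fun h1 => h𝔡 (Ideal.absNorm_eq_zero_iff.mp h1))
    exact_mod_cast Nat.one_le_iff_ne_zero.mpr h4
  have hR0 : 0 < R := by linarith
  have hRc : (R : ℂ) ≠ 0 := by exact_mod_cast hR0.ne'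
  set M := mellin (Ftotn ψ e ν (rp K)) with hM
  -- the mellin transform for the complementary representatives
  have hdM' : Differentiable ℂ (mellin (Ftotn ψ e ν 𝔟')) :=
    (hfe 𝔟' hR' e ν hν ψ hN' (mm 𝔟' 𝔣) D (mm_pos hR'.ne_bot h.ne_bot) hD0 Dd_mem
      (fun c => h.per_m (hR'.ne_bot c) (mm_mem _ _ c)) (hz _ hR')).2.1
  have hMM : mellin (Ftotn ψ e ν 𝔟') = M := by
    refine entire_eq hdM' h2 fun s hs => ?_
    rw [hM, (hmel 𝔟' hR' e ν ψ h.norm_le_one hN' s hs).2,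
      (hmel (rp K) reps_rp e ν ψ h.norm_le_one hN s hs).2]
  -- the functional equation
  set κ : ℂ := ((V⁻¹ : ℝ) : ℂ) * ((m : ℂ) ^ (Module.finrank ℚ K))⁻¹ * (-I) ^ (∑ w, e w) with hκ
  set A : ℂ := τ * ((m : ℂ) ^ (Module.finrank ℚ K) / (Ideal.absNorm 𝔣 : ℂ)) with hA
  have hG : ∀ s, mellin (Gtotn ψ e ν (rp K) m D) s =
      A * ((R : ℂ) ^ s * (starRingEnd ℂ) (M ((starRingEnd ℂ) s))) := by
    intro s
    have h5 : Gtotn ψ e ν (rp K) m D = fun t => A • (starRingEnd ℂ) (Ftotn ψ e ν 𝔟' (R⁻¹ * t)) := by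
      funext t
      rw [smul_eq_mul]
      exact Gtotn_eq h reps_rp hR' h𝔟' (fun c x => hτ (rp K c) (𝔟' c) m D hm0 hD0 (h𝔟' c)
        (mm_mem _ _ c) Dd_mem x) t
    rw [h5, mellin_const_smul, smul_eq_mul, mellin_conj (fun t => Ftotn ψ e ν 𝔟' (R⁻¹ * t)),
      mellin_comp_mul_left _ _ (inv_pos.mpr hR0), hMM, smul_eq_mul, map_mul]
    congr 2
    have h6 : (((R⁻¹ : ℝ) : ℂ)) ^ (-(starRingEnd ℂ) s) = (R : ℂ) ^ ((starRingEnd ℂ) s) := by
      rw [Complex.cpow_def_of_ne_zero (by exact_mod_cast (inv_pos.mpr hR0).ne'),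
        ← Complex.ofReal_log (inv_pos.mpr hR0).le, Real.log_inv,
        Complex.cpow_def_of_ne_zero hRc, ← Complex.ofReal_log hR0.le]
      congr 1
      push_cast
      ring
    rw [h6]
    have h7 : ((R : ℝ) : ℂ).arg ≠ Real.pi := by
      rw [Complex.arg_ofReal_of_nonneg hR0.le]
      exact Real.pi_ne_zero.symm
    have h8 := Complex.conj_cpow (R : ℂ) s h7
    rw [Complex.conj_ofReal] at h8
    exact h8.symm
  set L : ℂ → ℂ := fun s => (R : ℂ) ^ (s / 2) * M s with hL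
  set w : ℂ := κ * A * (R : ℂ) ^ (1 / 2 : ℂ) with hw
  have hconjR : ∀ z : ℂ, (starRingEnd ℂ) ((R : ℂ) ^ z) = (R : ℂ) ^ ((starRingEnd ℂ) z) := by
    intro z
    have h7 : ((R : ℝ) : ℂ).arg ≠ Real.pi := by
      rw [Complex.arg_ofReal_of_nonneg hR0.le]
      exact Real.pi_ne_zero.symm
    have h8 := Complex.conj_cpow (R : ℂ) ((starRingEnd ℂ) z) h7
    rw [Complex.conj_ofReal, Complex.conj_conj] at h8
    exact h8.symm
  have hLfe : ∀ s, L s = w * (starRingEnd ℂ) (L (1 - (starRingEnd ℂ) s)) := by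
    intro s
    have h5 := h3 (1 - s)
    rw [sub_sub_cancel, hG, map_sub, map_one] at h5
    rw [hL]
    simp only
    rw [h5, map_mul, hconjR, hw]
    have h6 : (starRingEnd ℂ) ((1 - (starRingEnd ℂ) s) / 2) = (1 - s) / 2 := by
      have h20 : (starRingEnd ℂ) (2 : ℂ) = 2 := map_ofNat (starRingEnd ℂ) 2
      rw [map_div₀, map_sub, map_one, Complex.conj_conj, h20]
    rw [h6]
    have h7 : (R : ℂ) ^ (s / 2) * (R : ℂ) ^ (1 - s) = (R : ℂ) ^ (1 / 2 : ℂ) * (R : ℂ) ^ ((1 - s) / 2) := by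
      rw [← Complex.cpow_add _ _ hRc, ← Complex.cpow_add _ _ hRc]
      congr 1
      ring
    linear_combination (κ * A * (starRingEnd ℂ) (M (1 - (starRingEnd ℂ) s))) * h7
  have hL2 : L 2 ≠ 0 := by
    rw [hL]
    simp only
    have h5 : (1 : ℝ) < (2 : ℂ).re := by norm_num
    rw [hM, (hmel (rp K) reps_rp e ν ψ h.norm_le_one hN 2 h5).2]
    obtain ⟨A', -, hd⟩ := Pool.Agent.Y772.DK.t_dirK K
    have h6 := (hd ψ h.norm_le_one).2.2.1 2 h5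
    refine mul_ne_zero ?_ (mul_ne_zero (by exact_mod_cast hC.ne')
      (mul_ne_zero (gamn_ne_zero e ν (by norm_num)) h6))
    rw [Ne, Complex.cpow_eq_zero_iff]
    exact fun h => hRc h.1
  have hw1 : ‖w‖ = 1 := by
    have h5 := hLfe 2
    have h6 := hLfe (1 - (starRingEnd ℂ) 2)
    rw [h6, map_mul] at h5
    have h7 : 1 - (starRingEnd ℂ) (1 - (starRingEnd ℂ) (2 : ℂ)) = 2 := by
      rw [map_sub, map_one, Complex.conj_conj]
      ring
    rw [h7, Complex.conj_conj] at h5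
    have h8 : w * (starRingEnd ℂ) w = 1 := by
      have : (w * (starRingEnd ℂ) w) * L 2 = 1 * L 2 := by linear_combination -h5
      exact mul_right_cancel₀ hL2 this
    rw [Complex.mul_conj, Complex.normSq_eq_norm_sq] at h8
    have h9 : ‖w‖ ^ 2 = 1 := by exact_mod_cast h8
    have := norm_nonneg w
    nlinarith
  have hC' : (C : ℂ) ≠ 0 := by exact_mod_cast hC.ne'
  have hGG : ∀ s : ℂ, (∀ w, s.im + -ν w ≠ 0) → GGn R e (fun w => -ν w) s *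
      ((C : ℂ)⁻¹ * (M s * ∏ w, (Complex.Gammaℝ (s - I * ν w + e w))⁻¹)) = (C : ℂ)⁻¹ * L s := by
    intro s hs
    unfold GGn
    rw [hL, Finset.prod_inv_distrib]
    simp only
    have h5 := gamn_ne_zero' e (K := K) ν (s := s) (fun w => by
      rw [sub_eq_add_neg]; exact hs w)
    have h6 : ∏ w, Complex.Gammaℝ (s + e w + I * ((-ν w : ℝ) : ℂ)) =
        ∏ w, Complex.Gammaℝ (s - I * ν w + e w) := by
      refine Finset.prod_congr rfl fun w _ => ?_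
      congr 1
      push_cast
      ring
    rw [h6]
    field_simp
  refine ⟨fun s => (C : ℂ)⁻¹ * (M s * ∏ w, (Complex.Gammaℝ (s - I * ν w + e w))⁻¹), ⟨he,
    (h2.mul (differentiable_gamn e ν)).const_mul _, ⟨w, hw1, ?_⟩, ?_⟩, ?_⟩
  · intro s hs
    have hs' : ∀ w, (1 - (starRingEnd ℂ) s).im + -ν w ≠ 0 := by simpa using hs
    rw [hGG s hs, hGG _ hs', map_mul, hLfe s]
    have h5 : (starRingEnd ℂ) ((C : ℂ)⁻¹) = (C : ℂ)⁻¹ := by
      rw [map_inv₀, Complex.conj_ofReal]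
    rw [h5]
    ring
  · intro a b
    obtain ⟨C', hC'⟩ := mellin_strip_bound h1 a b
    refine ⟨‖(C : ℂ)⁻¹‖ * (R ^ (b / 2) * C'), fun s hsa hsb him => ?_⟩
    have him' : ∀ w, s.im + -ν w ≠ 0 := by
      intro w h0
      have h9 := him w
      rw [h0, abs_zero] at h9
      linarith
    rw [hGG s him', norm_mul, hL]
    simp only
    rw [norm_mul]
    have h5 : ‖(R : ℂ) ^ (s / 2)‖ ≤ R ^ (b / 2) := by
      rw [Complex.norm_cpow_eq_rpow_re_of_pos hR0]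
      refine Real.rpow_le_rpow_of_exponent_le hR1 ?_
      have : (s / 2).re = s.re / 2 := by simp
      rw [this]
      linarith
    have h6 := hC' s hsa hsb
    gcongr
  · intro s hs
    simp only
    rw [hM, (hmel (rp K) reps_rp e ν ψ h.norm_le_one hN s hs).2, Finset.prod_inv_distrib]
    have h3 := gamn_ne_zero e (K := K) ν (s := s) (by linarith)
    field_simp

end Pool.Agent.Y767
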