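import Pool.Agent.Y767.HC.Stm2
import Pool.Agent.W388.LV.Defs

/-!
# Hecke characters of infinite order: statements of the parts, III

Owner helper767.
-/

set_option autoImplicit false

open NumberField Complex Filter Topology MeasureTheory
open NumberField.Units
open H385 (Rw bt)

namespace Pool.Agent.Y767

open Pool.Agent.Y773 (TPos LI VM cc sg)

/-- REP : representatives of the narrow ideal classes. -/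
def StRep : Prop := ∀ (K : Type) [Field K] [NumberField K] [IsTotallyReal K],
  ∃ S : Finset (Ideal (𝓞 K)), (∀ 𝔟 ∈ S, 𝔟 ≠ ⊥) ∧ ∀ 𝔞 : Ideal (𝓞 K), 𝔞 ≠ ⊥ →
    ∃ 𝔟 ∈ S, ∃ x : 𝓞 K, TPos K x ∧ 𝔞 * 𝔟 = Ideal.span {x}

/-- SEP : the norm of the difference of two totally positive integers. -/
def StSep : Prop := ∀ (K : Type) [Field K] [NumberField K] [IsTotallyReal K] (r : ℕ)
  (ε : Fin r → (𝓞 K)ˣ), (∀ i, TPos K ((ε i : (𝓞 K)ˣ) : 𝓞 K)) → ∀ ρ : ℝ, 0 ≤ ρ →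
  ∃ C : ℝ, 1 ≤ C ∧ ∀ (x x' : 𝓞 K) (y y' : Fin r → ℝ) (m : Fin r → ℤ), TPos K x → TPos K x' →
    (∀ w : InfinitePlace K, Real.log (w (x : K)) -
      Real.log (Ideal.absNorm (Ideal.span {x})) / (Module.finrank ℚ K : ℝ) =
        ∑ i, y i * Real.log (w ((ε i : (𝓞 K)ˣ) : K))) →
    (∀ w : InfinitePlace K, Real.log (w (x' : K)) -
      Real.log (Ideal.absNorm (Ideal.span {x'})) / (Module.finrank ℚ K : ℝ) =
        ∑ i, y' i * Real.log (w ((ε i : (𝓞 K)ˣ) : K))) →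
    (∀ i, |y i + m i - y' i| ≤ 2 * ρ) →
    (Ideal.absNorm (Ideal.span {x * ((∏ i, ε i ^ m i : (𝓞 K)ˣ) : 𝓞 K) - x'}) : ℝ) ≤
      C * max (Ideal.absNorm (Ideal.span {x}) : ℝ) (Ideal.absNorm (Ideal.span {x'}) : ℝ)

/-- MSQ : the mean square hypothesis from a large sieve inequality; adapt
`W388.LV.t_msqW` (`Pool.Agent.W388.LV.MSqW`) and `Pool.Agent.W398.LV.B`, `.C` (`point`,
`int_point`, `split_inf`, `YF_final`, `tail_le`, `btc_sum_int_E`). -/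
def StMSQn : Prop := ∀ (c : ℕ → ℂ), W388.SelE c → ∀ (d D : ℝ), 1 ≤ d → 1 ≤ D →
  ∀ (J : Type) (ι : J → Type) (s : (j : J) → Finset (ι j)) (X : J → ℝ)
    (a : (j : J) → ι j → ℕ → ℂ),
  (∀ j, 1 ≤ X j ∧ (s j).Nonempty) →
  (∀ j, ∀ i ∈ s j, ∀ m, ‖a j i m‖ ≤ d * ArithmeticFunction.vonMangoldt m) →
  (∀ ε0 : ℝ, 0 < ε0 → ε0 < 1 → ∃ X0 : ℝ, ∀ j, X0 ≤ X j → ∀ M : ℕ,
    (M : ℝ) ≤ (X j) ^ (d * (1 - ε0)) → ∀ b : ℕ → ℂ,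
    ∑ i ∈ s j, ‖∑ m ∈ Finset.Icc 1 M, b m * a j i m‖ ^ 2 ≤
      D * (s j).card * ∑ m ∈ Finset.Icc 1 M,
        ‖b m‖ ^ 2 * (ArithmeticFunction.vonMangoldt m * ‖c m‖) ^ 2) →
  ∀ (γ β : ℝ), 0 < γ → γ < Real.pi → 0 < β → β < d →
    W388.LV.HYL s (fun j _ => ((s j).card : ℝ)⁻¹) X a γ β
      (2 * β * (∫ α in (0 : ℝ)..1, α * Rw γ α) * D)

/-- ASM : 67.25% of the zeros from the large sieve inequality; use `W388.LV.t_coreL`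
(`Pool.Agent.W388.LV.FinE`), `H385.Rw_const_d2` (`Pool.Agent.H385R2.WinE`), `StMSQn`, `γ = 1.414`,
`β` close to `d`; the zeros of `F` and of `z ↦ F (z + i W)` are compared with `W388.LV.zcount_D` and
`W388.LV.N_lower_D`. -/
def StAsm : Prop := ∃ D : ℝ, 1 < D ∧ ∀ (c : ℕ → ℂ), W388.SelE c →
  ∀ (d A W : ℝ), 1 ≤ d → 1 ≤ A → 0 ≤ W →
  ∀ (J : Type) (ι : J → Type) (s : (j : J) → Finset (ι j)) (X : J → ℝ)
    (F : (j : J) → ι j → ℂ → ℂ) (a : (j : J) → ι j → ℕ → ℂ),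
  (∀ j, 1 ≤ X j ∧ (s j).Nonempty) →
  (∀ j, ∀ i ∈ s j, W388.LV.GoodG d A (X j) (fun z => F j i (z + W * I))
    (fun m => a j i m * (m : ℂ) ^ (-(W * I : ℂ)))) →
  (∀ j, ∀ i ∈ s j, ∀ m, ‖a j i m‖ ≤ d * ArithmeticFunction.vonMangoldt m) →
  (∀ ε0 : ℝ, 0 < ε0 → ε0 < 1 → ∃ X0 : ℝ, ∀ j, X0 ≤ X j → ∀ M : ℕ,
    (M : ℝ) ≤ (X j) ^ (d * (1 - ε0)) → ∀ b : ℕ → ℂ,
    ∑ i ∈ s j, ‖∑ m ∈ Finset.Icc 1 M, b m * a j i m‖ ^ 2 ≤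
      D * (s j).card * ∑ m ∈ Finset.Icc 1 M,
        ‖b m‖ ^ 2 * (ArithmeticFunction.vonMangoldt m * ‖c m‖) ^ 2) →
  ∃ η X0 : ℝ, 0 < η ∧ 1 ≤ X0 ∧ ∀ (j : J) (T : ℝ), X0 ≤ X j →
    (d * Real.log (X j)) ^ 2 ≤ T → T ≤ (X j) ^ η →
    (∀ i ∈ s j, (H370.zset (F j i) T (2 * T)).Finite) ∧
    0.6725 * ∑ i ∈ s j, (H370.NN (F j i) T (2 * T) : ℝ) ≤
      ∑ i ∈ s j, (H370.Ns (F j i) T (2 * T) : ℝ)

/-- ASM as an implication (what has to be proved). -/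
def StAsm' : Prop := StMSQn → StAsm

end Pool.Agent.Y767
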