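import Pool.Agent.Y767.HC.Ext
import Pool.Agent.Y767.HC.Stm3
import Pool.Agent.Y767.HC.Sig
import Pool.Agent.Y772.TW.Pos

/-! # The monoids of ideals and of totally positive integers prime to `𝔮` -/

set_option autoImplicit false
set_option linter.unusedSectionVars false

open NumberField Complex Filter Topology MeasureTheory
open NumberField.Units

namespace Pool.Agent.Y767

open Pool.Agent.Y773 (TPos LI VM cc sg)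

section

variable {K : Type} [Field K] [NumberField K]

lemma tpos_one : TPos K (1 : 𝓞 K) := by
  intro σ
  have : ((1 : 𝓞 K) : K) = 1 := map_one _
  rw [this, map_one]; exact one_pos

lemma tpos_mul {x y : 𝓞 K} (hx : TPos K x) (hy : TPos K y) : TPos K (x * y) := by
  intro σ
  have : ((x * y : 𝓞 K) : K) = (x : K) * (y : K) := map_mul (algebraMap (𝓞 K) K) x y
  rw [this, map_mul]; exact mul_pos (hx σ) (hy σ)

lemma tpos_of_mul {x y : 𝓞 K} (hx : TPos K x) (hxy : TPos K (x * y)) : TPos K y := by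
  intro σ
  have h := hxy σ
  have : ((x * y : 𝓞 K) : K) = (x : K) * (y : K) := map_mul (algebraMap (𝓞 K) K) x y
  rw [this, map_mul] at h
  exact (pos_iff_pos_of_mul_pos h).mp (hx σ)

/-- totally positive integers prime to `𝔮` -/
def Tq (𝔮 : Ideal (𝓞 K)) : Submonoid (𝓞 K) where
  carrier := {x | TPos K x ∧ IsCoprime (Ideal.span {x}) 𝔮}
  mul_mem' {x y} hx hy := ⟨tpos_mul hx.1 hy.1, by
    rw [← Ideal.span_singleton_mul_span_singleton]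
    exact IsCoprime.mul_left hx.2 hy.2⟩
  one_mem' := ⟨tpos_one, by
    rw [Ideal.span_singleton_one, ← Ideal.one_eq_top]
    exact isCoprime_one_left⟩

/-- ideals prime to `𝔮` -/
def Mq (𝔮 : Ideal (𝓞 K)) : Submonoid (Ideal (𝓞 K)) where
  carrier := {𝔞 | IsCoprime 𝔞 𝔮}
  mul_mem' hx hy := IsCoprime.mul_left hx hy
  one_mem' := isCoprime_one_left

lemma Tq_tp {𝔮 : Ideal (𝓞 K)} (x : Tq 𝔮) : TPos K (x : 𝓞 K) := x.2.1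

lemma Tq_cop {𝔮 : Ideal (𝓞 K)} (x : Tq 𝔮) : IsCoprime (Ideal.span {(x : 𝓞 K)}) 𝔮 := x.2.2

lemma Mq_cop {𝔮 : Ideal (𝓞 K)} (x : Mq 𝔮) : IsCoprime (x : Ideal (𝓞 K)) 𝔮 := x.2

lemma Mq_ne_bot {𝔮 : Ideal (𝓞 K)} (h𝔮 : 𝔮 ≠ ⊤) (x : Mq 𝔮) : (x : Ideal (𝓞 K)) ≠ ⊥ := by
  intro h
  have := x.2
  change IsCoprime (x : Ideal (𝓞 K)) 𝔮 at this
  rw [h, Ideal.isCoprime_iff_sup_eq, bot_sup_eq] at this
  exact h𝔮 this

lemma Tq_ne_zero {𝔮 : Ideal (𝓞 K)} (h𝔮 : 𝔮 ≠ ⊤) (x : Tq 𝔮) : (x : 𝓞 K) ≠ 0 := by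
  intro h
  have := Tq_cop x
  rw [h, Ideal.span_singleton_eq_bot.mpr rfl, Ideal.isCoprime_iff_sup_eq, bot_sup_eq] at this
  exact h𝔮 this

/-- the principal ideals -/
def pq (𝔮 : Ideal (𝓞 K)) : Tq 𝔮 →* Mq 𝔮 where
  toFun x := ⟨Ideal.span {(x : 𝓞 K)}, Tq_cop x⟩
  map_one' := by
    apply Subtype.ext
    change Ideal.span {(1 : 𝓞 K)} = 1
    rw [Ideal.span_singleton_one, Ideal.one_eq_top]
  map_mul' x y := by
    apply Subtype.ext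
    change Ideal.span {(x : 𝓞 K) * (y : 𝓞 K)} = _
    rw [← Ideal.span_singleton_mul_span_singleton]
    rfl

lemma pq_coe {𝔮 : Ideal (𝓞 K)} (x : Tq 𝔮) : ((pq 𝔮 x : Mq 𝔮) : Ideal (𝓞 K)) =
    Ideal.span {(x : 𝓞 K)} := rfl

lemma Mq_cancel {𝔮 : Ideal (𝓞 K)} (h𝔮 : 𝔮 ≠ ⊤) : IsCancelMul (Mq 𝔮) where
  mul_left_cancel x y z h := by
    apply Subtype.ext
    have h1 := congrArg (Subtype.val) h
    exact mul_left_cancel₀ (Mq_ne_bot h𝔮 x) h1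
  mul_right_cancel x y z h := by
    apply Subtype.ext
    have h1 := congrArg (Subtype.val) h
    exact mul_right_cancel₀ (Mq_ne_bot h𝔮 x) h1

lemma isUnit_mk {𝔮 : Ideal (𝓞 K)} {x : 𝓞 K} (h : IsCoprime (Ideal.span {x}) 𝔮) :
    IsUnit (Ideal.Quotient.mk 𝔮 x) := by
  obtain ⟨a, ha, b, hb, hab⟩ := (Ideal.isCoprime_iff_exists).1 h
  obtain ⟨c, rfl⟩ := Ideal.mem_span_singleton'.mp ha
  refine IsUnit.of_mul_eq_one (Ideal.Quotient.mk 𝔮 c) ?_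
  rw [← map_mul, mul_comm, ← sub_eq_zero, ← map_one (Ideal.Quotient.mk 𝔮), ← map_sub,
    Ideal.Quotient.eq_zero_iff_mem]
  have : c * x - 1 = -b := by rw [← hab]; ring
  rw [this]; exact neg_mem hb

lemma coprime_of_isUnit {𝔮 : Ideal (𝓞 K)} {x : 𝓞 K} (h : IsUnit (Ideal.Quotient.mk 𝔮 x)) :
    IsCoprime (Ideal.span {x}) 𝔮 := by
  obtain ⟨v, hv⟩ := h.exists_right_inv
  obtain ⟨c, rfl⟩ := Ideal.Quotient.mk_surjective v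
  rw [Ideal.isCoprime_iff_exists]
  refine ⟨x * c, Ideal.mul_mem_right _ _ (Ideal.mem_span_singleton_self x), 1 - x * c, ?_, by ring⟩
  rw [← Ideal.Quotient.eq_zero_iff_mem, map_sub, map_mul, hv, map_one, sub_self]

/-- the class modulo `𝔮` -/
noncomputable def gq (𝔮 : Ideal (𝓞 K)) : Tq 𝔮 →* (𝓞 K ⧸ 𝔮)ˣ where
  toFun x := (isUnit_mk (Tq_cop x)).unit
  map_one' := by
    ext
    change Ideal.Quotient.mk 𝔮 (1 : 𝓞 K) = 1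
    exact map_one _
  map_mul' x y := by
    ext
    change Ideal.Quotient.mk 𝔮 ((x : 𝓞 K) * (y : 𝓞 K)) = _
    rw [map_mul]
    rfl

lemma gq_coe {𝔮 : Ideal (𝓞 K)} (x : Tq 𝔮) : ((gq 𝔮 x : (𝓞 K ⧸ 𝔮)ˣ) : 𝓞 K ⧸ 𝔮) =
    Ideal.Quotient.mk 𝔮 (x : 𝓞 K) := rfl

lemma gq_eq_iff {𝔮 : Ideal (𝓞 K)} (x y : Tq 𝔮) : gq 𝔮 x = gq 𝔮 y ↔
    (x : 𝓞 K) - (y : 𝓞 K) ∈ 𝔮 := by
  rw [Units.ext_iff, gq_coe, gq_coe, ← Ideal.Quotient.eq]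

lemma gq_surj {𝔮 : Ideal (𝓞 K)} (h𝔮 : 𝔮 ≠ ⊥) : Function.Surjective (gq 𝔮) := by
  intro g
  obtain ⟨x, hx⟩ := Ideal.Quotient.mk_surjective (g : 𝓞 K ⧸ 𝔮)
  have hN : 0 < Ideal.absNorm 𝔮 :=
    Nat.pos_of_ne_zero (by rwa [Ne, Ideal.absNorm_eq_zero_iff])
  obtain ⟨k, hk, -⟩ := Pool.Agent.Y772.TW.exists_tpos x hN
  have h1 : Ideal.Quotient.mk 𝔮 (x + (k : 𝓞 K) * (Ideal.absNorm 𝔮 : 𝓞 K)) = g := by
    rw [map_add, map_mul, Ideal.Quotient.eq_zero_iff_mem.mpr (Ideal.absNorm_mem 𝔮), mul_zero,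
      add_zero, hx]
  refine ⟨⟨x + (k : 𝓞 K) * (Ideal.absNorm 𝔮 : 𝓞 K), hk, coprime_of_isUnit (by
    rw [h1]; exact g.isUnit)⟩, ?_⟩
  ext
  exact h1

/-- an ideal whose class is trivial is generated by a totally positive integer -/
lemma cls_one {𝔮 : Ideal (𝓞 K)} (h𝔮 : 𝔮 ≠ ⊤) {z : Mq 𝔮} (h : cls (pq 𝔮) z = 1) :
    ∃ t : Tq 𝔮, z = pq 𝔮 t := by
  have := Mq_cancel h𝔮
  obtain ⟨a, b, hab⟩ := cls_eq_one h
  have h1 : Ideal.span {(a : 𝓞 K)} * (z : Ideal (𝓞 K)) = Ideal.span {(b : 𝓞 K)} := by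
    rw [← pq_coe, ← pq_coe, ← Submonoid.coe_mul, hab]
  have h2 : (b : 𝓞 K) ∈ Ideal.span {(a : 𝓞 K)} := by
    have h4 : Ideal.span {(b : 𝓞 K)} ≤ Ideal.span {(a : 𝓞 K)} :=
      Ideal.dvd_iff_le.mp ⟨(z : Ideal (𝓞 K)), h1.symm⟩
    exact h4 (Ideal.mem_span_singleton_self _)
  obtain ⟨t, ht⟩ := Ideal.mem_span_singleton'.mp h2
  rw [mul_comm] at ht
  have h3 : (z : Ideal (𝓞 K)) = Ideal.span {t} := by
    apply mul_left_cancel₀ (a := Ideal.span {(a : 𝓞 K)})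
    · rw [Ne, Ideal.zero_eq_bot, Ideal.span_singleton_eq_bot]
      exact Tq_ne_zero h𝔮 a
    · rw [h1, Ideal.span_singleton_mul_span_singleton, ht]
  refine ⟨⟨t, ?_, ?_⟩, ?_⟩
  · apply tpos_of_mul (Tq_tp a)
    rw [ht]; exact Tq_tp b
  · rw [← h3]; exact Mq_cop z
  · apply Subtype.ext
    rw [pq_coe]; exact h3

end

section

variable {K : Type} [Field K] [NumberField K] [IsTotallyReal K]

/-- the character of the group of the residue classes prime to `𝔮` -/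
theorem IsHM.exists_chi {𝔮 : Ideal (𝓞 K)} {ν : InfinitePlace K → ℝ} {ψ : Ideal (𝓞 K) →*₀ ℂ}
    (h : IsHM K 𝔮 ν ψ) (htop : 𝔮 ≠ ⊤) :
    ∃ χ : (𝓞 K ⧸ 𝔮)ˣ →* ℂˣ, ∀ x : Tq 𝔮,
      ψ (Ideal.span {(x : 𝓞 K)}) = ((χ (gq 𝔮 x) : ℂˣ) : ℂ) * ax ν ((x : 𝓞 K) : K) := by
  have hne : ∀ x : Tq 𝔮, ψ (Ideal.span {(x : 𝓞 K)}) ≠ 0 := fun x => by
    refine (h.supp _ ?_).mpr (Tq_cop x)
    rw [Ne, Ideal.span_singleton_eq_bot]
    exact Tq_ne_zero htop x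
  have hax : ∀ x : K, ax ν x ≠ 0 := fun x => Complex.exp_ne_zero _
  have hmul : ∀ x y : Tq 𝔮, ψ (Ideal.span {((x * y : Tq 𝔮) : 𝓞 K)}) / ax ν (((x * y : Tq 𝔮) : 𝓞 K) : K) =
      (ψ (Ideal.span {(x : 𝓞 K)}) / ax ν ((x : 𝓞 K) : K)) *
        (ψ (Ideal.span {(y : 𝓞 K)}) / ax ν ((y : 𝓞 K) : K)) := by
    intro x y
    rw [Submonoid.coe_mul, ax_coe_mul ν (Tq_ne_zero htop x) (Tq_ne_zero htop y),
      ← Ideal.span_singleton_mul_span_singleton, map_mul]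
    field_simp
  have hone : ∀ x : Tq 𝔮, gq 𝔮 x = 1 → ψ (Ideal.span {(x : 𝓞 K)}) / ax ν ((x : 𝓞 K) : K) = 1 := by
    intro x hx
    rw [← map_one (gq 𝔮), gq_eq_iff] at hx
    rw [h.ray _ hx (Tq_tp x), div_self (hax _)]
  have hcong : ∀ x y : Tq 𝔮, gq 𝔮 x = gq 𝔮 y → ψ (Ideal.span {(x : 𝓞 K)}) / ax ν ((x : 𝓞 K) : K) =
      ψ (Ideal.span {(y : 𝓞 K)}) / ax ν ((y : 𝓞 K) : K) := by
    intro x y hxy
    obtain ⟨z, hz⟩ := gq_surj h.ne_bot (gq 𝔮 x)⁻¹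
    have h1 := hone (x * z) (by rw [map_mul, hz, mul_inv_cancel])
    have h2 := hone (y * z) (by rw [map_mul, hz, hxy, mul_inv_cancel])
    rw [hmul] at h1 h2
    have hz0 : ψ (Ideal.span {(z : 𝓞 K)}) / ax ν ((z : 𝓞 K) : K) ≠ 0 := div_ne_zero (hne z) (hax _)
    exact mul_right_cancel₀ hz0 (h1.trans h2.symm)
  choose s hs using gq_surj h.ne_bot
  refine ⟨MonoidHom.mk' (fun g => Units.mk0 (ψ (Ideal.span {((s g : Tq 𝔮) : 𝓞 K)}) /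
    ax ν (((s g : Tq 𝔮) : 𝓞 K) : K)) (div_ne_zero (hne _) (hax _))) ?_, ?_⟩
  · intro g g'
    ext
    rw [Units.val_mul, Units.val_mk0, Units.val_mk0, Units.val_mk0, ← hmul]
    refine hcong _ _ ?_
    rw [hs, map_mul, hs, hs]
  · intro x
    rw [MonoidHom.mk'_apply, Units.val_mk0, hcong _ _ (hs (gq 𝔮 x)), div_mul_cancel₀ _ (hax _)]

/-- the associated character of the monoid of the ideals prime to `𝔮` -/
noncomputable def toM {𝔮 : Ideal (𝓞 K)} (ψ : Ideal (𝓞 K) →*₀ ℂ)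
    (h : ∀ x : Mq 𝔮, ψ (x : Ideal (𝓞 K)) ≠ 0) : Mq 𝔮 →* ℂˣ where
  toFun x := Units.mk0 (ψ (x : Ideal (𝓞 K))) (h x)
  map_one' := by
    ext
    rw [Units.val_mk0, Submonoid.coe_one, map_one, Units.val_one]
  map_mul' x y := by
    ext
    rw [Units.val_mk0, Units.val_mul, Units.val_mk0, Units.val_mk0, Submonoid.coe_mul, map_mul]

lemma toM_coe {𝔮 : Ideal (𝓞 K)} (ψ : Ideal (𝓞 K) →*₀ ℂ)
    (h : ∀ x : Mq 𝔮, ψ (x : Ideal (𝓞 K)) ≠ 0) (x : Mq 𝔮) :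
    ((toM ψ h x : ℂˣ) : ℂ) = ψ (x : Ideal (𝓞 K)) := rfl

lemma IsHM.ne_zero' {𝔮 : Ideal (𝓞 K)} {ν : InfinitePlace K → ℝ} {ψ : Ideal (𝓞 K) →*₀ ℂ}
    (h : IsHM K 𝔮 ν ψ) (htop : 𝔮 ≠ ⊤) (x : Mq 𝔮) : ψ (x : Ideal (𝓞 K)) ≠ 0 :=
  (h.supp _ (Mq_ne_bot htop x)).mpr (Mq_cop x)

/-- a character is determined by its values on the ideals prime to `𝔮` -/
lemma IsHM.ext_of {𝔮 : Ideal (𝓞 K)} {ν ν' : InfinitePlace K → ℝ} {ψ ψ' : Ideal (𝓞 K) →*₀ ℂ}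
    (h : IsHM K 𝔮 ν ψ) (h' : IsHM K 𝔮 ν' ψ') (he : ∀ x : Mq 𝔮, ψ (x : Ideal (𝓞 K)) = ψ' x) :
    ψ = ψ' := by
  ext 𝔞
  by_cases h0 : 𝔞 = ⊥
  · rw [h0, ← Ideal.zero_eq_bot, map_zero, map_zero]
  by_cases hc : IsCoprime 𝔞 𝔮
  · exact he ⟨𝔞, hc⟩
  · have h1 : ψ 𝔞 = 0 := by
      by_contra h2
      exact hc ((h.supp 𝔞 h0).mp h2)
    have h2 : ψ' 𝔞 = 0 := by
      by_contra h2
      exact hc ((h'.supp 𝔞 h0).mp h2)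
    rw [h1, h2]

open Classical in
/-- extension by zero -/
noncomputable def ofM {𝔮 : Ideal (𝓞 K)} (htop : 𝔮 ≠ ⊤) (F : Mq 𝔮 →* ℂˣ) : Ideal (𝓞 K) →*₀ ℂ where
  toFun 𝔞 := if h : IsCoprime 𝔞 𝔮 then ((F ⟨𝔞, h⟩ : ℂˣ) : ℂ) else 0
  map_zero' := by
    rw [dif_neg]
    intro h
    rw [Ideal.zero_eq_bot, Ideal.isCoprime_iff_sup_eq, bot_sup_eq] at h
    exact htop h
  map_one' := by
    rw [dif_pos isCoprime_one_left]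
    have : (⟨1, isCoprime_one_left⟩ : Mq 𝔮) = 1 := rfl
    rw [this, map_one, Units.val_one]
  map_mul' 𝔞 𝔟 := by
    by_cases h1 : IsCoprime 𝔞 𝔮
    · by_cases h2 : IsCoprime 𝔟 𝔮
      · rw [dif_pos h1, dif_pos h2, dif_pos (h1.mul_left h2), ← Units.val_mul, ← map_mul]
        rfl
      · rw [dif_neg h2, dif_neg (fun h => h2 (IsCoprime.mul_left_iff.mp h).2), mul_zero]
    · rw [dif_neg h1, dif_neg (fun h => h1 (IsCoprime.mul_left_iff.mp h).1), zero_mul]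

open Classical in
lemma ofM_coe {𝔮 : Ideal (𝓞 K)} (htop : 𝔮 ≠ ⊤) (F : Mq 𝔮 →* ℂˣ) (x : Mq 𝔮) :
    ofM htop F (x : Ideal (𝓞 K)) = ((F x : ℂˣ) : ℂ) := by
  change (if h : IsCoprime (x : Ideal (𝓞 K)) 𝔮 then ((F ⟨(x : Ideal (𝓞 K)), h⟩ : ℂˣ) : ℂ) else 0) = _
  rw [dif_pos (Mq_cop x)]

open Classical in
lemma ofM_supp {𝔮 : Ideal (𝓞 K)} (htop : 𝔮 ≠ ⊤) (F : Mq 𝔮 →* ℂˣ) (𝔞 : Ideal (𝓞 K)) :
    ofM htop F 𝔞 ≠ 0 ↔ IsCoprime 𝔞 𝔮 := by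
  change (if h : IsCoprime 𝔞 𝔮 then ((F ⟨𝔞, h⟩ : ℂˣ) : ℂ) else 0) ≠ 0 ↔ _
  by_cases h : IsCoprime 𝔞 𝔮
  · rw [dif_pos h]
    exact ⟨fun _ => h, fun _ => Units.ne_zero _⟩
  · rw [dif_neg h]
    exact ⟨fun h1 => absurd rfl h1, fun h1 => absurd h1 h⟩

end

end Pool.Agent.Y767
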