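import Pool.Agent.Y767.HC.Stm2

/-! # Extension of characters, the class group of a pair of monoids -/

set_option autoImplicit false

open Complex Filter Topology MeasureTheory
open Algebra (GrothendieckGroup)

namespace Pool.Agent.Y767

/-- division in the multiplicative group of `ℂ` -/
@[reducible] noncomputable def divC : DivisibleBy (Additive ℂˣ) ℤ where
  div a n := Additive.ofMul (Units.mk0 (cexp (Complex.log ((Additive.toMul a : ℂˣ) : ℂ) / n))
    (Complex.exp_ne_zero _))
  div_zero a := by
    apply Additive.toMul.injective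
    change Units.mk0 (cexp (Complex.log ((Additive.toMul a : ℂˣ) : ℂ) / ((0 : ℤ) : ℂ)))
      (Complex.exp_ne_zero _) = 1
    ext
    simp
  div_cancel {n} a hn := by
    change Additive.ofMul ((Units.mk0 (cexp (Complex.log ((Additive.toMul a : ℂˣ) : ℂ) / n))
      (Complex.exp_ne_zero _)) ^ n) = a
    apply Additive.toMul.injective
    change (Units.mk0 (cexp (Complex.log ((Additive.toMul a : ℂˣ) : ℂ) / n)) _) ^ n = Additive.toMul a
    ext
    have hn' : (n : ℂ) ≠ 0 := by exact_mod_cast hn
    rw [Units.val_zpow_eq_zpow_val, Units.val_mk0, ← Complex.exp_int_mul, mul_div_cancel₀ _ hn',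
      Complex.exp_log (Units.ne_zero _)]

theorem ext_group {A B : Type} [CommGroup A] [CommGroup B] (i : B →* A) (φ : B →* ℂˣ)
    (h : ∀ b, i b = 1 → φ b = 1) : ∃ F : A →* ℂˣ, ∀ b, F (i b) = φ b := by
  let _ := divC
  have hb : Module.Baer ℤ (Additive ℂˣ) := Module.Baer.of_divisible _
  have hker : i.ker ≤ φ.ker := fun b hb => by
    rw [MonoidHom.mem_ker] at hb ⊢
    exact h b hb
  obtain ⟨F, hF⟩ := hb.extension_property_addMonoidHom
    (MonoidHom.toAdditive (QuotientGroup.kerLift i))
    (fun x y hxy => QuotientGroup.kerLift_injective i hxy)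
    (MonoidHom.toAdditive (QuotientGroup.lift i.ker φ hker))
  refine ⟨MonoidHom.toAdditive.symm F, fun b => ?_⟩
  have := DFunLike.congr_fun hF (Additive.ofMul (QuotientGroup.mk b : B ⧸ i.ker))
  exact this

section mon

variable {T M : Type} [CommMonoid T] [CommMonoid M]

/-- the map of the Grothendieck groups -/
noncomputable def grm (π : T →* M) : GrothendieckGroup T →* GrothendieckGroup M :=
  GrothendieckGroup.lift (GrothendieckGroup.of.comp π)

lemma gr_exists (x : GrothendieckGroup M) : ∃ a b : M,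
    x * GrothendieckGroup.of b = GrothendieckGroup.of a := by
  induction x using Localization.induction_on with
  | H y =>
    obtain ⟨m, s⟩ := y
    refine ⟨m, s, ?_⟩
    rw [Localization.mk_eq_monoidOf_mk']
    exact Submonoid.LocalizationMap.mk'_spec _ m s

lemma grm_of (π : T →* M) (a : T) :
    grm π (GrothendieckGroup.of a) = GrothendieckGroup.of (π a) := by
  unfold grm
  have := DFunLike.congr_fun (GrothendieckGroup.lift.symm_apply_apply
    (GrothendieckGroup.of.comp π)) a
  exact this

theorem ext_mon [IsCancelMul M] (π : T →* M) (φ : T →* ℂˣ)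
    (h : ∀ a b, π a = π b → φ a = φ b) : ∃ F : M →* ℂˣ, ∀ a, F (π a) = φ a := by
  have hl : ∀ a, GrothendieckGroup.lift φ (GrothendieckGroup.of a) = φ a := fun a =>
    DFunLike.congr_fun (GrothendieckGroup.lift.symm_apply_apply φ) a
  obtain ⟨F, hF⟩ := ext_group (grm π) (GrothendieckGroup.lift φ) (by
    intro x hx
    obtain ⟨a, b, hab⟩ := gr_exists x
    have h1 : grm π x * GrothendieckGroup.of (π b) = GrothendieckGroup.of (π a) := by
      rw [← grm_of, ← grm_of, ← hab, map_mul]
    rw [hx, one_mul] at h1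
    have h2 := h b a (GrothendieckGroup.of_injective h1)
    have h3 : GrothendieckGroup.lift φ x * φ b = φ a := by
      rw [← hl b, ← hl a, ← hab, map_mul]
    rw [h2] at h3
    exact mul_eq_right.mp h3)
  refine ⟨F.comp GrothendieckGroup.of, fun a => ?_⟩
  rw [MonoidHom.comp_apply, ← grm_of, hF, hl]

/-- the class group of a pair -/
abbrev Cls (π : T →* M) : Type := GrothendieckGroup M ⧸ (grm π).range

/-- the class of an element -/
noncomputable def cls (π : T →* M) : M →* Cls π :=
  (QuotientGroup.mk' (grm π).range).comp GrothendieckGroup.of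

lemma cls_eq [IsCancelMul M] {π : T →* M} {x y : M} (h : cls π x = cls π y) :
    ∃ a b : T, π a * x = π b * y := by
  unfold cls at h
  rw [MonoidHom.comp_apply, MonoidHom.comp_apply, QuotientGroup.mk'_apply, QuotientGroup.mk'_apply,
    QuotientGroup.eq, MonoidHom.mem_range] at h
  obtain ⟨g, hg⟩ := h
  obtain ⟨a, b, hab⟩ := gr_exists g
  refine ⟨a, b, GrothendieckGroup.of_injective ?_⟩
  have h1 : grm π g * GrothendieckGroup.of (π b) = GrothendieckGroup.of (π a) := by
    rw [← grm_of, ← grm_of, ← hab, map_mul]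
  rw [hg] at h1
  rw [map_mul, map_mul, ← h1, mul_comm _ (GrothendieckGroup.of x), mul_assoc,
    mul_inv_cancel_left, mul_comm]

lemma cls_eq_one [IsCancelMul M] {π : T →* M} {x : M} (h : cls π x = 1) :
    ∃ a b : T, π a * x = π b := by
  obtain ⟨a, b, hab⟩ := cls_eq (y := 1) (h.trans (map_one (cls π)).symm)
  exact ⟨a, b, by rw [hab, mul_one]⟩

lemma cls_pi (π : T →* M) (a : T) : cls π (π a) = 1 := by
  unfold cls
  rw [MonoidHom.comp_apply, QuotientGroup.mk'_apply, QuotientGroup.eq_one_iff, MonoidHom.mem_range]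
  exact ⟨_, grm_of π a⟩

lemma cls_of_mul {π : T →* M} {x y : M} {a b : T} (h : π a * x = π b * y) :
    cls π x = cls π y := by
  have := congrArg (cls π) h
  rwa [map_mul, map_mul, cls_pi, cls_pi, one_mul, one_mul] at this

/-- every class is a quotient of two classes of elements -/
lemma cls_div (π : T →* M) (c : Cls π) : ∃ a b : M, c * cls π b = cls π a := by
  obtain ⟨x, rfl⟩ := QuotientGroup.mk_surjective c
  obtain ⟨a, b, hab⟩ := gr_exists x
  refine ⟨a, b, ?_⟩
  unfold cls
  rw [MonoidHom.comp_apply, MonoidHom.comp_apply, ← hab, map_mul]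
  rfl

/-- two extensions of the same character differ by a character of the class group -/
theorem exists_lam (π : T →* M) (F F' : M →* ℂˣ) (h : ∀ a, F (π a) = F' (π a)) :
    ∃ lam : Cls π →* ℂˣ, ∀ x, F x = F' x * lam (cls π x) := by
  have hl : ∀ (f : M →* ℂˣ) (a : M), GrothendieckGroup.lift f (GrothendieckGroup.of a) = f a :=
    fun f a => DFunLike.congr_fun (GrothendieckGroup.lift.symm_apply_apply f) a
  set R : M →* ℂˣ := F / F' with hR
  have hR1 : ∀ a, R (π a) = 1 := by
    intro a
    rw [hR, MonoidHom.div_apply, h, div_self']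
  have hk : (grm π).range ≤ (GrothendieckGroup.lift R).ker := by
    rintro _ ⟨g, rfl⟩
    obtain ⟨a, b, hab⟩ := gr_exists g
    have h1 : grm π g * GrothendieckGroup.of (π b) = GrothendieckGroup.of (π a) := by
      rw [← grm_of, ← grm_of, ← hab, map_mul]
    have h2 := congrArg (GrothendieckGroup.lift R) h1
    rw [map_mul, hl, hl, hR1, hR1, mul_one] at h2
    exact h2
  refine ⟨QuotientGroup.lift _ (GrothendieckGroup.lift R) hk, fun x => ?_⟩
  have h3 : QuotientGroup.lift _ (GrothendieckGroup.lift R) hk (cls π x) = R x := hl R x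
  rw [h3, hR, MonoidHom.div_apply, mul_div_cancel]

/-- the number of characters of a finite commutative group -/
lemma card_dual (G : Type) [CommGroup G] [Finite G] : Nat.card (G →* ℂˣ) = Nat.card G := by
  have : NeZero (Monoid.exponent G) := ⟨Monoid.exponent_ne_zero_of_finite⟩
  exact CommGroup.card_monoidHom_of_hasEnoughRootsOfUnity G ℂ

lemma finite_dual (G : Type) [CommGroup G] [Finite G] : Finite (G →* ℂˣ) := by
  refine Nat.finite_of_card_ne_zero ?_
  rw [card_dual]
  exact Nat.card_pos.ne'

/-- Bessel's inequality for a finite commutative group -/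
theorem bes_fin (hB : StBes) (C : Type) [CommGroup C] [Fintype C] (Y : Finset (C →* ℂˣ))
    (v : C → ℂ) : ∑ lam ∈ Y, ‖∑ c, v c * ((lam c : ℂˣ) : ℂ)‖ ^ 2 ≤
      Fintype.card C * ∑ c, ‖v c‖ ^ 2 := by
  classical
  have h := hB 0 C (fun i => i.elim0) 0 (fun _ => 1) continuous_const
    (fun z hz => by obtain ⟨i, _⟩ := hz; exact i.elim0) C Finset.univ id (fun _ i => i.elim0)
    (fun x _ x' _ m h1 _ => ⟨by simpa using h1, by funext i; exact i.elim0⟩)
    (Y.map ⟨fun lam => (lam, fun i => i.elim0), fun a b hab => (Prod.ext_iff.mp hab).1⟩)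
    (fun p _ i => i.elim0) v
  rw [Finset.sum_map] at h
  have hv : (volume : Measure (Fin 0 → ℝ)) Set.univ = 1 := by
    rw [volume_pi, Measure.pi_of_empty (x := fun i => i.elim0)]
    simp
  have hI : ∫ z : Fin 0 → ℝ, (1 : ℝ) = 1 := by
    rw [integral_const, Measure.real, hv]
    simp
  have hI' : ∫ z : Fin 0 → ℝ, (1 : ℂ) = 1 := by
    rw [integral_const, Measure.real, hv]
    simp
  simp only [Finset.univ_eq_empty, Finset.sum_empty, ofReal_zero,
    mul_zero, neg_zero, Complex.exp_zero, mul_one, hI', norm_one, one_pow, one_mul, hI, id] at h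
  exact h

/-- **Sum over the extensions of a character** -/
theorem bes_cls (hB : StBes) [IsCancelMul M] (π : T →* M) [Fintype (Cls π)] [DecidableEq (Cls π)]
    (F₀ : M →* ℂˣ)
    (Y : Finset (M →* ℂˣ)) (hY : ∀ F ∈ Y, ∀ a, F (π a) = F₀ (π a)) (S : Finset M) (a : M → ℂ) :
    ∑ F ∈ Y, ‖∑ x ∈ S, a x * ((F x : ℂˣ) : ℂ)‖ ^ 2 ≤ Fintype.card (Cls π) *
      ∑ c : Cls π, ‖∑ x ∈ S.filter (fun x => cls π x = c), a x * ((F₀ x : ℂˣ) : ℂ)‖ ^ 2 := by
  classical
  choose! lam hlam using fun F (hF : F ∈ Y) => exists_lam π F F₀ (hY F hF)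
  have hinj : Set.InjOn lam Y := by
    intro F hF F' hF' h
    ext x
    rw [hlam F hF, hlam F' hF', h]
  have h := bes_fin hB (Cls π) (Y.image lam)
    (fun c => ∑ x ∈ S.filter (fun x => cls π x = c), a x * ((F₀ x : ℂˣ) : ℂ))
  rw [Finset.sum_image hinj] at h
  refine le_trans (le_of_eq ?_) h
  refine Finset.sum_congr rfl fun F hF => ?_
  congr 2
  rw [← Finset.sum_fiberwise S (cls π)]
  refine Finset.sum_congr rfl fun c _ => ?_
  rw [Finset.sum_mul]
  refine Finset.sum_congr rfl fun x hx => ?_
  rw [hlam F hF x, (Finset.mem_filter.mp hx).2]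
  push_cast
  ring

end mon

end Pool.Agent.Y767
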