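import Pool.Agent.Y773.HK.Defs

/-!
# Hecke characters of infinite order: definitions

Owner helper767 (zeros of the L-functions of Hecke characters of totally real fields).
-/

set_option autoImplicit false

open NumberField Complex Filter Topology

namespace Pool.Agent.Y767

open Pool.Agent.Y773 (TPos LI VM cc sg)

section chars

variable {K : Type} [Field K] [NumberField K]

/-- `∏_w |x|_w^(i ν_w)` -/
noncomputable def ax (ν : InfinitePlace K → ℝ) (x : K) : ℂ :=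
  cexp (I * ((∑ w, ν w * Real.log (w x) : ℝ) : ℂ))

variable (K)

/-- `ψ` is a Hecke character modulo `𝔣` (not necessarily primitive, any signs at the real places) of
infinity type `ν`, as a function on the ideals. -/
structure IsHM (𝔣 : Ideal (𝓞 K)) (ν : InfinitePlace K → ℝ) (ψ : Ideal (𝓞 K) →*₀ ℂ) : Prop where
  ne_bot : 𝔣 ≠ ⊥
  supp : ∀ 𝔞 : Ideal (𝓞 K), 𝔞 ≠ ⊥ → (ψ 𝔞 ≠ 0 ↔ IsCoprime 𝔞 𝔣)
  ray : ∀ x : 𝓞 K, x - 1 ∈ 𝔣 → TPos K x → ψ (Ideal.span {x}) = ax ν (x : K)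

/-- `ψ` is a primitive Hecke character of finite conductor `𝔣` and infinity type `ν`. -/
structure IsHecke (𝔣 : Ideal (𝓞 K)) (ν : InfinitePlace K → ℝ) (ψ : Ideal (𝓞 K) →*₀ ℂ) : Prop
    extends IsHM K 𝔣 ν ψ where
  prim : ∀ 𝔤 : Ideal (𝓞 K), 𝔤 ∣ 𝔣 → 𝔤 ≠ 𝔣 →
    ∃ x : 𝓞 K, x - 1 ∈ 𝔤 ∧ TPos K x ∧ IsCoprime (Ideal.span {x}) 𝔣 ∧
      ψ (Ideal.span {x}) ≠ ax ν (x : K)

/-- all primitive Hecke characters of finite conductor `𝔣`, normalised by `∑ ν_w = 0`, whose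
infinity type is in the box `|ν_w| ≤ V` -/
def HFam (𝔣 : Ideal (𝓞 K)) (V : ℝ) : Set (Ideal (𝓞 K) →*₀ ℂ) :=
  {ψ | ∃ ν : InfinitePlace K → ℝ, (∀ w, |ν w| ≤ V) ∧ ∑ w, ν w = 0 ∧ IsHecke K 𝔣 ν ψ}

end chars

/-! ## gamma factors -/

/-- the archimedean factor `R^(s/2) ∏ Γ_ℝ(s + e_i + i ν_i)` -/
noncomputable def GGn {ι : Type} [Fintype ι] (R : ℝ) (e : ι → ℕ) (ν : ι → ℝ) (s : ℂ) : ℂ :=
  (R : ℂ) ^ (s / 2) * ∏ i, Complex.Gammaℝ (s + e i + I * ν i)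

/-- functional equation data of degree `#ι` with gamma factors `Γ_ℝ(s + e_i + i ν_i)` -/
structure FEn {ι : Type} [Fintype ι] (R : ℝ) (e : ι → ℕ) (ν : ι → ℝ) (F : ℂ → ℂ) : Prop where
  he : ∀ i, e i ≤ 1
  diff : Differentiable ℂ F
  fe : ∃ w : ℂ, ‖w‖ = 1 ∧ ∀ s : ℂ, (∀ i, s.im + ν i ≠ 0) → GGn R e ν s * F s =
    w * (starRingEnd ℂ) (GGn R e ν (1 - (starRingEnd ℂ) s) * F (1 - (starRingEnd ℂ) s))
  vert : ∀ a b : ℝ, ∃ C : ℝ, ∀ s : ℂ, a ≤ s.re → s.re ≤ b → (∀ i, 1 ≤ |s.im + ν i|) →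
    ‖GGn R e ν s * F s‖ ≤ C

end Pool.Agent.Y767
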