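import Pool.Agent.Y767.HC.Sig

/-! # Continuation of the L-functions of all Hecke characters, with a possible pole at `s = 1` -/

set_option autoImplicit false
set_option linter.unusedSectionVars false

open NumberField Complex Filter Topology MeasureTheory Set
open NumberField.Units NumberField.Units.dirichletUnitTheorem

namespace Pool.Agent.Y767

open Pool.Agent.Y773

variable {K : Type} [Field K] [NumberField K] [IsTotallyReal K]

/-- **Continuation, general form** -/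
theorem fam_cont (K : Type) [Field K] [NumberField K] [IsTotallyReal K]
    (𝔟 : ClassGroup (𝓞 K) → Ideal (𝓞 K)) (h𝔟 : Reps 𝔟) (e : InfinitePlace K → ℕ)
      (ν : InfinitePlace K → ℝ) (hν : ∑ w, ν w = 0)
      (η : Ideal (𝓞 K) →*₀ ℂ) (hN : ∀ c, Nicen e ν (Pk η (kk e ν) (𝔟 c))) (m D : ℕ) (hm : 0 < m)
      (hD : 0 < D)
      (hDD : (D : 𝓞 K) ∈ differentIdeal ℤ (𝓞 K))
      (hper : ∀ c (x z : 𝓞 K), Pk η (kk e ν) (𝔟 c) (x + m * z) = Pk η (kk e ν) (𝔟 c) x) :
      ∃ (Λ₀ : ℂ → ℂ) (c₀ : ℂ), Differentiable ℂ Λ₀ ∧ ∀ s : ℂ, 1 < s.re →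
        (s - 1) * mellin (Ftotn η e ν 𝔟) s = (s - 1) * Λ₀ s + c₀ := by
  classical
  obtain ⟨V, hV0, hV⟩ := hfn_fe K
  have he : ∀ w, e w ≤ 1 := (hN (Classical.arbitrary _)).he
  have hNpos : ∀ c, (0 : ℝ) < (Ideal.absNorm (𝔟 c) : ℝ) := by
    intro c
    have : Ideal.absNorm (𝔟 c) ≠ 0 := by
      rw [Ne, Ideal.absNorm_eq_zero_iff]
      exact h𝔟.ne_bot c
    exact_mod_cast Nat.pos_of_ne_zero this
  have hmD : (0 : ℝ) < ((m * D : ℕ) : ℝ) := by
    have : 0 < m * D := Nat.mul_pos hm hD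
    exact_mod_cast this
  have hν' : ∑ w, (fun w => -ν w) w = 0 := by
    simp only [Finset.sum_neg_distrib, hν, neg_zero]
  choose B hB using fun c => (hN c).bdd
  have hBn : ∀ c, 0 ≤ B c := fun c => (norm_nonneg _).trans (hB c 0)
  have hE : ∀ c, Eqvn e ν (Pk η (kk e ν) (𝔟 c)) := fun c => (hN c).unit
  have hE' : ∀ c, Eqvn e (fun w => -ν w) (FT D m (Pk η (kk e ν) (𝔟 c))) :=
    fun c => FT_eqvn (hE c) hm hD (hper c)
  have hBF := fun c => norm_FT_le (D := D) hm (hBn c) (hB c)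
  have hN' : ∀ c, Nicen e (fun w => -ν w) (rz (FT D m (Pk η (kk e ν) (𝔟 c)))) :=
    fun c => rz_nicen he (hBF c) (hE' c)
  have hBF' : ∀ c x, ‖rz (FT D m (Pk η (kk e ν) (𝔟 c))) x‖ ≤
      Nat.card (𝓞 K ⧸ Ideal.span {(m : 𝓞 K)}) * B c := by
    intro c x
    unfold rz
    split_ifs
    · rw [norm_zero]
      have := hBn c
      positivity
    · exact hBF c x
  set κ : ℂ := ((V⁻¹ : ℝ) : ℂ) * ((m : ℂ) ^ (Module.finrank ℚ K))⁻¹ * (-I) ^ (∑ w, e w) with hκ
  have hκ0 : κ ≠ 0 := by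
    rw [hκ]
    refine mul_ne_zero (mul_ne_zero ?_ ?_) ?_
    · exact_mod_cast (inv_pos.mpr hV0).ne'
    · refine inv_ne_zero (pow_ne_zero _ ?_)
      exact_mod_cast hm.ne'
    · exact pow_ne_zero _ (neg_ne_zero.mpr Complex.I_ne_zero)
  set M : ℝ := ((m * D : ℕ) : ℝ) ^ (Module.finrank ℚ K) with hM
  have hM0 : 0 < M := by positivity
  set c₀ : ℂ := ∑ c, (Ideal.absNorm (𝔟 c) : ℂ) * (FT D m (Pk η (kk e ν) (𝔟 c)) 0 *
          ((G0 e (fun _ => 0) : ℝ) : ℂ) * Ph K (fun w => -ν w)) with hc₀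
  have hfg : ∀ t : ℝ, 0 < t → Ftotn η e ν 𝔟 (1 / t) =
      (κ * ((t ^ (1 : ℝ) : ℝ) : ℂ)) • (c₀ + Gtotn η e ν 𝔟 m D t) := by
    intro t ht
    rw [Real.rpow_one, smul_eq_mul]
    unfold Ftotn Gtotn
    have h1 : ∀ c, hfn e ν (Pk η (kk e ν) (𝔟 c)) ((Ideal.absNorm (𝔟 c) : ℝ)⁻¹ * (1 / t)) =
        κ * t * ((Ideal.absNorm (𝔟 c) : ℂ) * (FT D m (Pk η (kk e ν) (𝔟 c)) 0 *
          ((G0 e (fun _ => 0) : ℝ) : ℂ) * Ph K (fun w => -ν w))) +
        κ * t * ((Ideal.absNorm (𝔟 c) : ℂ) *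
          hfn e (fun w => -ν w) (rz (FT D m (Pk η (kk e ν) (𝔟 c))))
          (t * Ideal.absNorm (𝔟 c) / M)) := by
      intro c
      have h2 : (Ideal.absNorm (𝔟 c) : ℝ)⁻¹ * (1 / t) = 1 / (t * Ideal.absNorm (𝔟 c)) := by
        have := (hNpos c).ne'
        field_simp
      rw [h2, hV e ν he hν _ (B c) (hB c) (hE c) m D hm hD hDD (hper c) _ (mul_pos ht (hNpos c)),
        hfn_rz hν' he (hBF c) (hBF' c), ← hκ, ← hM]
      push_cast
      ring
    simp_rw [h1]
    rw [Finset.sum_add_distrib, ← Finset.mul_sum, ← Finset.mul_sum, ← hc₀, mul_add]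
  let P : WeakFEPair ℂ :=
    { f := Ftotn η e ν 𝔟
      g := fun t => c₀ + Gtotn η e ν 𝔟 m D t
      k := 1
      ε := κ
      f₀ := 0
      g₀ := c₀
      hf_int := by
        refine ContinuousOn.locallyIntegrableOn ?_ measurableSet_Ioi
        unfold Ftotn
        exact continuousOn_finsetSum _ fun c _ => locInt_hfn (hN c) (inv_pos.mpr (hNpos c))
      hg_int := by
        refine ContinuousOn.locallyIntegrableOn ?_ measurableSet_Ioi
        unfold Gtotn
        refine continuousOn_const.add ?_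
        refine continuousOn_finsetSum _ fun c _ => continuousOn_const.mul ?_
        have := locInt_hfn (hN' c) (a := Ideal.absNorm (𝔟 c) / M) (div_pos (hNpos c) hM0)
        refine this.congr fun t _ => ?_
        simp only
        congr 1
        ring
      hk := one_pos
      hε := hκ0
      h_feq := fun x hx => hfg x hx
      hf_top := fun r => by
        simp only [sub_zero]
        unfold Ftotn
        refine (Asymptotics.IsBigO.sum (s := Finset.univ)
          (A := fun c t => hfn e ν (Pk η (kk e ν) (𝔟 c)) ((Ideal.absNorm (𝔟 c) : ℝ)⁻¹ * t))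
          fun c _ => hfn_decay' (hN c) (inv_pos.mpr (hNpos c)) r).congr_left fun t => ?_
        rw [Finset.sum_apply]
      hg_top := fun r => by
        simp only [add_sub_cancel_left]
        unfold Gtotn
        refine (Asymptotics.IsBigO.sum (s := Finset.univ)
          (A := fun c t => (Ideal.absNorm (𝔟 c) : ℂ) *
            hfn e (fun w => -ν w) (rz (FT D m (Pk η (kk e ν) (𝔟 c))))
            (t * Ideal.absNorm (𝔟 c) / M)) fun c _ => Asymptotics.IsBigO.const_mul_left ?_ _).congr_left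
              fun t => by rw [Finset.sum_apply]
        have := hfn_decay' (hN' c) (a := Ideal.absNorm (𝔟 c) / M) (div_pos (hNpos c) hM0) r
        refine this.congr_left fun t => ?_
        congr 1
        ring }
  refine ⟨P.Λ₀, κ * c₀, P.differentiable_Λ₀, fun s hs => ?_⟩
  have h1 := (P.hasMellin (s := s) hs).2
  have h2 : mellin (fun x => P.f x - P.f₀) s = mellin (Ftotn η e ν 𝔟) s := by
    congr 1
    funext x
    change Ftotn η e ν 𝔟 x - 0 = _
    rw [sub_zero]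
  rw [h2] at h1
  have h3 := P.Λ₀_eq s
  have hk : ((P.k : ℝ) : ℂ) = 1 := by
    change ((1 : ℝ) : ℂ) = 1
    simp
  have hf0 : P.f₀ = 0 := rfl
  have hg0 : P.g₀ = c₀ := rfl
  have hε : P.ε = κ := rfl
  rw [hf0, hg0, hε, hk, smul_zero, add_zero, smul_eq_mul] at h3
  have hs1 : (1 : ℂ) - s ≠ 0 := by
    intro h
    have := congrArg Complex.re h
    simp at this
    linarith
  rw [h1, h3]
  field_simp
  ring

/-- **Continuation** of the L-function of any Hecke character: `(s-1) L(s,η)` is entire -/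
theorem LI_cont {𝔪 : Ideal (𝓞 K)} {e : InfinitePlace K → ℕ} {ν : InfinitePlace K → ℝ}
    {η : Ideal (𝓞 K) →*₀ ℂ} (he : ∀ w, e w ≤ 1) (hν : ∑ w, ν w = 0)
    (h : IsModK 𝔪 (kk e ν) η) :
    ∃ F : ℂ → ℂ, Differentiable ℂ F ∧ ∀ s : ℂ, 1 < s.re → F s = (s - 1) * LI η s := by
  obtain ⟨C, hC, hmel⟩ := mellin_Ftotn K
  have hN : ∀ c, Nicen e ν (Pk η (kk e ν) (rp K c)) := fun c => h.nice he (rp_ne_bot c)
  obtain ⟨Λ₀, c₀, h1, h2⟩ := fam_cont K (rp K) reps_rp e ν hν η hN (mm (rp K) 𝔪) (Dd K)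
    (mm_pos rp_ne_bot h.ne_bot)
    Dd_pos Dd_mem (fun c => h.per_m (rp_ne_bot c) (mm_mem _ _ c))
  refine ⟨fun s => (C : ℂ)⁻¹ * (((s - 1) * Λ₀ s + c₀) *
    ∏ w, (Complex.Gammaℝ (s - I * ν w + e w))⁻¹),
    (((((differentiable_id.sub_const _).mul h1).add_const _)).mul
      (differentiable_gamn e ν)).const_mul _, fun s hs => ?_⟩
  simp only
  rw [← h2 s hs, (hmel (rp K) reps_rp e ν η h.norm_le_one hN s hs).2, Finset.prod_inv_distrib]
  have h3 := gamn_ne_zero e (K := K) ν (s := s) (by linarith)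
  have hC' : (C : ℂ) ≠ 0 := by exact_mod_cast hC.ne'
  field_simp

end Pool.Agent.Y767
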