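import Pool.Agent.Y767.HC.Hfn

/-! # The functional equation, general form, with infinity type
(adapted from `Pool.Agent.Y773.HK.Cls`, `Fam` of helper773) -/

set_option autoImplicit false
set_option linter.unusedSectionVars false

open NumberField Complex Filter Topology MeasureTheory Set
open NumberField.Units NumberField.Units.dirichletUnitTheorem

namespace Pool.Agent.Y767

open Pool.Agent.Y773

variable {K : Type} [Field K] [NumberField K] [IsTotallyReal K]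

/-- the archimedean character `sg_e(x) ∏ |x|_w^(-iν_w)` -/
noncomputable def kk (e : InfinitePlace K → ℕ) (ν : InfinitePlace K → ℝ) (x : K) : ℂ :=
  sg e x * ax (fun w => -ν w) x

lemma kap_kk (e : InfinitePlace K → ℕ) {ν : InfinitePlace K → ℝ} (hν : ∑ w, ν w = 0) :
    Kap (kk e ν) where
  mul x y hx hy := by
    unfold kk
    rw [sg_mul, ax_mul _ hx hy]
    ring
  norm x hx := by
    unfold kk
    rw [norm_mul, norm_ax, mul_one, norm_sg hx]
  le x := by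
    unfold kk
    rw [norm_mul, norm_ax, mul_one]
    exact norm_sg_le e x
  nat k hk := by
    unfold kk
    rw [sg_natCast e hk, one_mul]
    unfold ax
    have : (∑ w : InfinitePlace K, -ν w * Real.log (w (k : K)) : ℝ) = 0 := by
      have h1 : ∀ w : InfinitePlace K, w (k : K) = k := fun w => by
        rw [← InfinitePlace.norm_embedding_eq w, map_natCast]
        simp
      simp_rw [h1]
      rw [← Finset.sum_mul, Finset.sum_neg_distrib, hν, neg_zero, zero_mul]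
    rw [this]
    simp

lemma rz_nicen {e : InfinitePlace K → ℕ} {ν : InfinitePlace K → ℝ} (he : ∀ w, e w ≤ 1)
    {Φ : 𝓞 K → ℂ} {B : ℝ}
    (hB : ∀ x, ‖Φ x‖ ≤ B) (hE : Eqvn e ν Φ) : Nicen e ν (rz Φ) where
  he := he
  bdd := ⟨B, fun x => by
    unfold rz
    split_ifs
    · rw [norm_zero]
      exact (norm_nonneg _).trans (hB 0)
    · exact hB x⟩
  zero := by simp [rz]
  unit u x := by
    unfold rz
    by_cases hx : x = 0
    · simp [hx]
    · have : (u : 𝓞 K) * x ≠ 0 := mul_ne_zero u.ne_zero hx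
      rw [if_neg hx, if_neg this, hE]

/-- the integral of the phase over the cube -/
noncomputable def Ph (K : Type) [Field K] [NumberField K] (ν : InfinitePlace K → ℝ) : ℂ :=
  ∫ θ in Icc (0 : Fin (rank K) → ℝ) 1, ph ν (el K (0, θ))

lemma ph_el (ν : InfinitePlace K → ℝ) (hν : ∑ w, ν w = 0) (τ : ℝ) (θ : Fin (rank K) → ℝ) :
    ph ν (el K (τ, θ)) = ph ν (el K (0, θ)) := by
  have h1 : el K (τ, θ) = fun w => el K (0, θ) w + (fun _ => τ) w := by
    funext w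
    simp only [el, LinearMap.coe_mk, AddHom.coe_mk]
    ring
  rw [h1, ph_add]
  have : ph ν (fun _ => τ) = 1 := by
    unfold ph
    rw [← Finset.sum_mul, hν, zero_mul]
    simp
  rw [this, mul_one]

lemma hfn_rz {e : InfinitePlace K → ℕ} {ν : InfinitePlace K → ℝ} (hν : ∑ w, ν w = 0)
    (he : ∀ w, e w ≤ 1) {Φ : 𝓞 K → ℂ} {B : ℝ}
    (hB : ∀ x, ‖Φ x‖ ≤ B) (hB' : ∀ x, ‖rz Φ x‖ ≤ B) (t : ℝ) :
    hfn e ν Φ t = Φ 0 * ((G0 e (fun _ => 0) : ℝ) : ℂ) * Ph K ν + hfn e ν (rz Φ) t := by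
  rw [hfn_eq, hfn_eq]
  unfold tp
  simp_rw [th_rz he hB, add_mul]
  have h1 : Continuous (el K) := (el K).continuous_of_finiteDimensional
  have hc : Continuous fun θ : Fin (rank K) → ℝ =>
      th e (rz Φ) (el K ((2 / Module.finrank ℚ K) * Real.log t, θ)) *
        ph ν (el K ((2 / Module.finrank ℚ K) * Real.log t, θ)) :=
    (continuous_tp ν he hB').comp (h1.comp (by fun_prop))
  have hc2 : Continuous fun θ : Fin (rank K) → ℝ => Φ 0 * ((G0 e (fun _ => 0) : ℝ) : ℂ) *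
        ph ν (el K ((2 / Module.finrank ℚ K) * Real.log t, θ)) :=
    continuous_const.mul ((continuous_ph ν).comp (h1.comp (by fun_prop)))
  rw [integral_add hc2.integrableOn_Icc hc.integrableOn_Icc]
  congr 1
  rw [integral_const_mul]
  unfold Ph
  simp_rw [ph_el ν hν]

/-- the total function -/
noncomputable def Ftotn (η : Ideal (𝓞 K) →*₀ ℂ) (e : InfinitePlace K → ℕ)
    (ν : InfinitePlace K → ℝ)
    (𝔟 : ClassGroup (𝓞 K) → Ideal (𝓞 K)) (t : ℝ) : ℂ :=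
  ∑ c, hfn e ν (Pk η (kk e ν) (𝔟 c)) ((Ideal.absNorm (𝔟 c) : ℝ)⁻¹ * t)

/-- the dual function -/
noncomputable def Gtotn (η : Ideal (𝓞 K) →*₀ ℂ) (e : InfinitePlace K → ℕ)
    (ν : InfinitePlace K → ℝ)
    (𝔟 : ClassGroup (𝓞 K) → Ideal (𝓞 K)) (m D : ℕ) (t : ℝ) : ℂ :=
  ∑ c, (Ideal.absNorm (𝔟 c) : ℂ) * hfn e (fun w => -ν w) (rz (FT D m (Pk η (kk e ν) (𝔟 c))))
    (t * Ideal.absNorm (𝔟 c) / ((m * D : ℕ) : ℝ) ^ (Module.finrank ℚ K))

lemma AAn_Pk (e : InfinitePlace K → ℕ) (ν : InfinitePlace K → ℝ) (η : Ideal (𝓞 K) →*₀ ℂ)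
    (𝔟 : Ideal (𝓞 K)) (J : PIdl K) :
    AAn e ν (Pk η (kk e ν) 𝔟) J = η (qt 𝔟 (gen J)) := by
  unfold AAn Pk kk
  have h1 := sg_sq e (x := (gen J : K)) (RingOfIntegers.coe_ne_zero_iff.mpr (gen_ne_zero J))
  have h2 := ax_neg_mul ν (gen J : K)
  calc _ = η (qt 𝔟 (gen J)) * (sg e (gen J : K) * sg e (gen J : K)) *
        (ax (fun w => -ν w) (gen J : K) * ax ν (gen J : K)) := by ring
    _ = _ := by rw [h1, h2, mul_one, mul_one]

/-- Mellin transform of the total function -/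
theorem mellin_Ftotn (K : Type) [Field K] [NumberField K] [IsTotallyReal K] : ∃ C : ℝ, 0 < C ∧
    ∀ (𝔟 : ClassGroup (𝓞 K) → Ideal (𝓞 K)), Reps 𝔟 → ∀ (e : InfinitePlace K → ℕ)
      (ν : InfinitePlace K → ℝ)
      (η : Ideal (𝓞 K) →*₀ ℂ), (∀ 𝔞, ‖η 𝔞‖ ≤ 1) → (∀ c, Nicen e ν (Pk η (kk e ν) (𝔟 c))) →
      ∀ s : ℂ, 1 < s.re → MellinConvergent (Ftotn η e ν 𝔟) s ∧
        mellin (Ftotn η e ν 𝔟) s = C * ((∏ w, Complex.Gammaℝ (s - I * ν w + e w)) * LI η s) := by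
  classical
  obtain ⟨C, hC, h⟩ := mellin_hfn K
  refine ⟨C, hC, fun 𝔟 h𝔟 e ν η hη hN s hs => ?_⟩
  have hpos : ∀ c, (0 : ℝ) < (Ideal.absNorm (𝔟 c) : ℝ)⁻¹ := by
    intro c
    have : Ideal.absNorm (𝔟 c) ≠ 0 := by
      rw [Ne, Ideal.absNorm_eq_zero_iff]
      exact h𝔟.ne_bot c
    have : 0 < Ideal.absNorm (𝔟 c) := Nat.pos_of_ne_zero this
    positivity
  have h1 : ∀ c, MellinConvergent
      (fun t => hfn e ν (Pk η (kk e ν) (𝔟 c)) ((Ideal.absNorm (𝔟 c) : ℝ)⁻¹ * t)) s := by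
    intro c
    rw [MellinConvergent.comp_mul_left (hpos c)]
    exact (h e ν _ (hN c) s hs).1
  have h2 : ∀ c, mellin
      (fun t => hfn e ν (Pk η (kk e ν) (𝔟 c)) ((Ideal.absNorm (𝔟 c) : ℝ)⁻¹ * t)) s =
      C * ((∏ w, Complex.Gammaℝ (s - I * ν w + e w)) * (((Ideal.absNorm (𝔟 c) : ℕ) : ℂ) ^ s *
        ∑' J : PIdl K, η (qt (𝔟 c) (gen J)) * ((Ideal.absNorm J.1 : ℕ) : ℂ) ^ (-s))) := by
    intro c
    rw [mellin_comp_mul_left _ _ (hpos c), (h e ν _ (hN c) s hs).2.2, smul_eq_mul]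
    simp_rw [AAn_Pk]
    have h3 : (((Ideal.absNorm (𝔟 c) : ℝ)⁻¹ : ℝ) : ℂ) ^ (-s) = ((Ideal.absNorm (𝔟 c) : ℕ) : ℂ) ^ s := by
      have h4 : (0 : ℝ) < Ideal.absNorm (𝔟 c) := inv_pos.mp (hpos c)
      rw [Complex.cpow_def_of_ne_zero (by exact_mod_cast (hpos c).ne'),
        ← Complex.ofReal_log (hpos c).le, Real.log_inv,
        Complex.cpow_def_of_ne_zero (by exact_mod_cast h4.ne'), ← Complex.ofReal_natCast,
        ← Complex.ofReal_log h4.le]
      congr 1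
      push_cast
      ring
    rw [h3]
    ring
  have h5 : ∀ S : Finset (ClassGroup (𝓞 K)), MellinConvergent
      (fun t => ∑ c ∈ S, hfn e ν (Pk η (kk e ν) (𝔟 c)) ((Ideal.absNorm (𝔟 c) : ℝ)⁻¹ * t)) s ∧
      mellin (fun t => ∑ c ∈ S, hfn e ν (Pk η (kk e ν) (𝔟 c)) ((Ideal.absNorm (𝔟 c) : ℝ)⁻¹ * t)) s =
      ∑ c ∈ S, mellin (fun t => hfn e ν (Pk η (kk e ν) (𝔟 c)) ((Ideal.absNorm (𝔟 c) : ℝ)⁻¹ * t)) s := by
    intro S
    induction S using Finset.induction_on with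
    | empty =>
      simp only [Finset.sum_empty]
      constructor
      · unfold MellinConvergent
        simp
      · simp [mellin]
    | insert c S hc ih =>
      simp only [Finset.sum_insert hc]
      constructor
      · exact (hasMellin_add (h1 c) ih.1).1
      · rw [← ih.2]
        exact (hasMellin_add (h1 c) ih.1).2
  refine ⟨(h5 Finset.univ).1, ?_⟩
  have h6 := (h5 Finset.univ).2
  unfold Ftotn
  rw [h6]
  simp_rw [h2]
  rw [← Finset.mul_sum, ← Finset.mul_sum, sum_classes h𝔟 hη hs]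

lemma locInt_hfn {e : InfinitePlace K → ℕ} {ν : InfinitePlace K → ℝ} {Ψ : 𝓞 K → ℂ}
    (h : Nicen e ν Ψ) {a : ℝ} (ha : 0 < a) :
    ContinuousOn (fun t => hfn e ν Ψ (a * t)) (Ioi 0) := by
  obtain ⟨B, hB⟩ := h.bdd
  refine (continuousOn_hfn ν h.he hB).comp (by fun_prop) ?_
  intro t ht
  exact mul_pos ha ht

lemma hfn_decay' {e : InfinitePlace K → ℕ} {ν : InfinitePlace K → ℝ} {Ψ : 𝓞 K → ℂ}
    (h : Nicen e ν Ψ) {a : ℝ} (ha : 0 < a)
    (r : ℝ) : (fun t => hfn e ν Ψ (a * t)) =O[atTop] (fun t => t ^ r) := by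
  have h1 := (hfn_decay h r).comp_tendsto (tendsto_id.const_mul_atTop ha)
  refine h1.trans ?_
  refine Asymptotics.IsBigO.of_bound (a ^ r) ?_
  filter_upwards [eventually_gt_atTop 0] with t ht
  simp only [Function.comp_apply, id]
  rw [Real.mul_rpow ha.le ht.le, norm_mul, Real.norm_of_nonneg (Real.rpow_nonneg ha.le r)]

/-- **The functional equation, general form** -/
theorem fam_fen (K : Type) [Field K] [NumberField K] [IsTotallyReal K] : ∃ V : ℝ, 0 < V ∧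
    ∀ (𝔟 : ClassGroup (𝓞 K) → Ideal (𝓞 K)), Reps 𝔟 → ∀ (e : InfinitePlace K → ℕ)
      (ν : InfinitePlace K → ℝ), ∑ w, ν w = 0 →
      ∀ (η : Ideal (𝓞 K) →*₀ ℂ), (∀ c, Nicen e ν (Pk η (kk e ν) (𝔟 c))) →
      ∀ m D : ℕ, 0 < m → 0 < D →
      (D : 𝓞 K) ∈ differentIdeal ℤ (𝓞 K) →
      (∀ c (x z : 𝓞 K), Pk η (kk e ν) (𝔟 c) (x + m * z) = Pk η (kk e ν) (𝔟 c) x) →
      ((G0 e (fun _ => 0) : ℝ) : ℂ) * Ph K (fun w => -ν w) *
        (∑ c, (Ideal.absNorm (𝔟 c) : ℂ) * FT D m (Pk η (kk e ν) (𝔟 c)) 0) = 0 →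
      (∀ s, MellinConvergent (Ftotn η e ν 𝔟) s) ∧ Differentiable ℂ (mellin (Ftotn η e ν 𝔟)) ∧
      ∀ s, mellin (Ftotn η e ν 𝔟) (1 - s) =
        (((V⁻¹ : ℝ) : ℂ) * ((m : ℂ) ^ (Module.finrank ℚ K))⁻¹ * (-I) ^ (∑ w, e w)) *
          mellin (Gtotn η e ν 𝔟 m D) s := by
  classical
  obtain ⟨V, hV0, hV⟩ := hfn_fe K
  refine ⟨V, hV0, fun 𝔟 h𝔟 e ν hν η hN m D hm hD hDD hper hzero => ?_⟩
  have he : ∀ w, e w ≤ 1 := (hN (Classical.arbitrary _)).he
  have hNpos : ∀ c, (0 : ℝ) < (Ideal.absNorm (𝔟 c) : ℝ) := by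
    intro c
    have : Ideal.absNorm (𝔟 c) ≠ 0 := by
      rw [Ne, Ideal.absNorm_eq_zero_iff]
      exact h𝔟.ne_bot c
    exact_mod_cast Nat.pos_of_ne_zero this
  have hmD : (0 : ℝ) < ((m * D : ℕ) : ℝ) := by
    have : 0 < m * D := Nat.mul_pos hm hD
    exact_mod_cast this
  have hν' : ∑ w, (fun w => -ν w) w = 0 := by
    simp only [Finset.sum_neg_distrib, hν, neg_zero]
  choose B hB using fun c => (hN c).bdd
  have hBn : ∀ c, 0 ≤ B c := fun c => (norm_nonneg _).trans (hB c 0)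
  have hE : ∀ c, Eqvn e ν (Pk η (kk e ν) (𝔟 c)) := fun c => (hN c).unit
  have hE' : ∀ c, Eqvn e (fun w => -ν w) (FT D m (Pk η (kk e ν) (𝔟 c))) :=
    fun c => FT_eqvn (hE c) hm hD (hper c)
  have hBF := fun c => norm_FT_le (D := D) hm (hBn c) (hB c)
  have hN' : ∀ c, Nicen e (fun w => -ν w) (rz (FT D m (Pk η (kk e ν) (𝔟 c)))) :=
    fun c => rz_nicen he (hBF c) (hE' c)
  have hBF' : ∀ c x, ‖rz (FT D m (Pk η (kk e ν) (𝔟 c))) x‖ ≤
      Nat.card (𝓞 K ⧸ Ideal.span {(m : 𝓞 K)}) * B c := by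
    intro c x
    unfold rz
    split_ifs
    · rw [norm_zero]
      have := hBn c
      positivity
    · exact hBF c x
  set κ : ℂ := ((V⁻¹ : ℝ) : ℂ) * ((m : ℂ) ^ (Module.finrank ℚ K))⁻¹ * (-I) ^ (∑ w, e w) with hκ
  have hκ0 : κ ≠ 0 := by
    rw [hκ]
    refine mul_ne_zero (mul_ne_zero ?_ ?_) ?_
    · exact_mod_cast (inv_pos.mpr hV0).ne'
    · refine inv_ne_zero (pow_ne_zero _ ?_)
      exact_mod_cast hm.ne'
    · exact pow_ne_zero _ (neg_ne_zero.mpr Complex.I_ne_zero)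
  set M : ℝ := ((m * D : ℕ) : ℝ) ^ (Module.finrank ℚ K) with hM
  have hM0 : 0 < M := by positivity
  have hfg : ∀ t : ℝ, 0 < t → Ftotn η e ν 𝔟 (1 / t) =
      (κ * ((t ^ (1 : ℝ) : ℝ) : ℂ)) • Gtotn η e ν 𝔟 m D t := by
    intro t ht
    rw [Real.rpow_one, smul_eq_mul]
    unfold Ftotn Gtotn
    have h1 : ∀ c, hfn e ν (Pk η (kk e ν) (𝔟 c)) ((Ideal.absNorm (𝔟 c) : ℝ)⁻¹ * (1 / t)) =
        κ * t * ((Ideal.absNorm (𝔟 c) : ℂ) * (FT D m (Pk η (kk e ν) (𝔟 c)) 0 *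
          ((G0 e (fun _ => 0) : ℝ) : ℂ) * Ph K (fun w => -ν w))) +
        κ * t * ((Ideal.absNorm (𝔟 c) : ℂ) *
          hfn e (fun w => -ν w) (rz (FT D m (Pk η (kk e ν) (𝔟 c))))
          (t * Ideal.absNorm (𝔟 c) / M)) := by
      intro c
      have h2 : (Ideal.absNorm (𝔟 c) : ℝ)⁻¹ * (1 / t) = 1 / (t * Ideal.absNorm (𝔟 c)) := by
        have := (hNpos c).ne'
        field_simp
      rw [h2, hV e ν he hν _ (B c) (hB c) (hE c) m D hm hD hDD (hper c) _ (mul_pos ht (hNpos c)),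
        hfn_rz hν' he (hBF c) (hBF' c), ← hκ, ← hM]
      push_cast
      ring
    simp_rw [h1]
    rw [Finset.sum_add_distrib, ← Finset.mul_sum, ← Finset.mul_sum]
    have h3 : ∑ c, (Ideal.absNorm (𝔟 c) : ℂ) * (FT D m (Pk η (kk e ν) (𝔟 c)) 0 *
          ((G0 e (fun _ => 0) : ℝ) : ℂ) * Ph K (fun w => -ν w)) = 0 := by
      rw [← hzero, Finset.mul_sum]
      exact Finset.sum_congr rfl fun c _ => by ring
    rw [h3, mul_zero, zero_add]
  let P : WeakFEPair ℂ :=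
    { f := Ftotn η e ν 𝔟
      g := Gtotn η e ν 𝔟 m D
      k := 1
      ε := κ
      f₀ := 0
      g₀ := 0
      hf_int := by
        refine ContinuousOn.locallyIntegrableOn ?_ measurableSet_Ioi
        unfold Ftotn
        exact continuousOn_finsetSum _ fun c _ => locInt_hfn (hN c) (inv_pos.mpr (hNpos c))
      hg_int := by
        refine ContinuousOn.locallyIntegrableOn ?_ measurableSet_Ioi
        unfold Gtotn
        refine continuousOn_finsetSum _ fun c _ => continuousOn_const.mul ?_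
        have := locInt_hfn (hN' c) (a := Ideal.absNorm (𝔟 c) / M) (div_pos (hNpos c) hM0)
        refine this.congr fun t _ => ?_
        simp only
        congr 1
        ring
      hk := one_pos
      hε := hκ0
      h_feq := fun x hx => hfg x hx
      hf_top := fun r => by
        simp only [sub_zero]
        unfold Ftotn
        refine (Asymptotics.IsBigO.sum (s := Finset.univ)
          (A := fun c t => hfn e ν (Pk η (kk e ν) (𝔟 c)) ((Ideal.absNorm (𝔟 c) : ℝ)⁻¹ * t))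
          fun c _ => hfn_decay' (hN c) (inv_pos.mpr (hNpos c)) r).congr_left fun t => ?_
        rw [Finset.sum_apply]
      hg_top := fun r => by
        simp only [sub_zero]
        unfold Gtotn
        refine (Asymptotics.IsBigO.sum (s := Finset.univ)
          (A := fun c t => (Ideal.absNorm (𝔟 c) : ℂ) *
            hfn e (fun w => -ν w) (rz (FT D m (Pk η (kk e ν) (𝔟 c))))
            (t * Ideal.absNorm (𝔟 c) / M)) fun c _ => Asymptotics.IsBigO.const_mul_left ?_ _).congr_left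
              fun t => by rw [Finset.sum_apply]
        have := hfn_decay' (hN' c) (a := Ideal.absNorm (𝔟 c) / M) (div_pos (hNpos c) hM0) r
        refine this.congr_left fun t => ?_
        congr 1
        ring }
  have hP : IsStrongFEPair P := ⟨rfl, rfl⟩
  refine ⟨fun s => (hP.hasMellin s).1, ?_, ?_⟩
  · have := hP.differentiable_Λ
    rw [hP.Λ_eq] at this
    exact this
  · intro s
    have h1 := P.functional_equation s
    rw [hP.Λ_eq, hP.symm_Λ_eq] at h1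
    have h2 : ((P.k : ℝ) : ℂ) = 1 := by
      change ((1 : ℝ) : ℂ) = 1
      simp
    rw [h2] at h1
    exact h1

end Pool.Agent.Y767
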