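import Pool.Agent.Y767.HC.Grp

/-! # Coordinates with respect to a basis of the totally positive units -/

set_option autoImplicit false
set_option linter.unusedSectionVars false

open NumberField Complex Filter Topology MeasureTheory
open NumberField.Units

namespace Pool.Agent.Y767

open Pool.Agent.Y773 (TPos LI VM cc sg)

/-- a basis of the totally positive units and the coordinates -/
structure UD (K : Type) [Field K] [NumberField K] where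
  ε : Fin (rank K) → (𝓞 K)ˣ
  tp : ∀ i, TPos K ((ε i : (𝓞 K)ˣ) : 𝓞 K)
  gen : ∀ u : (𝓞 K)ˣ, TPos K (u : 𝓞 K) → ∃ m : Fin (rank K) → ℤ, u = ∏ i, ε i ^ m i
  ind : ∀ m : Fin (rank K) → ℤ, ∏ i, ε i ^ m i = 1 → m = 0
  NU : (Fin (rank K) → ℝ) →ₗ[ℝ] (InfinitePlace K → ℝ)
  NUs : ∀ θ, ∑ w, NU θ w = 0
  NUl : ∀ θ i, ∑ w, NU θ w * Real.log (w ((ε i : (𝓞 K)ˣ) : K)) = 2 * Real.pi * θ i
  NUi : ∀ ν : InfinitePlace K → ℝ, ∑ w, ν w = 0 →
    NU (fun i => (∑ w, ν w * Real.log (w ((ε i : (𝓞 K)ˣ) : K))) / (2 * Real.pi)) = ν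
  yc : 𝓞 K → Fin (rank K) → ℝ
  ycs : ∀ x : 𝓞 K, x ≠ 0 → ∀ w : InfinitePlace K, Real.log (w (x : K)) -
      Real.log (Ideal.absNorm (Ideal.span {x})) / (Module.finrank ℚ K : ℝ) =
        ∑ i, yc x i * Real.log (w ((ε i : (𝓞 K)ˣ) : K))

section

variable {K : Type} [Field K] [NumberField K] [IsTotallyReal K]

lemma mult_one (w : InfinitePlace K) : w.mult = 1 := by
  rw [InfinitePlace.mult, if_pos (IsTotallyReal.isReal w)]

lemma card_places : Fintype.card (InfinitePlace K) = Module.finrank ℚ K := by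
  have h := InfinitePlace.sum_mult_eq (K := K)
  rw [← h]
  simp only [mult_one]
  simp

lemma sum_log {x : 𝓞 K} (hx : x ≠ 0) : ∑ w : InfinitePlace K, Real.log (w (x : K)) =
    Real.log (Ideal.absNorm (Ideal.span {x})) := by
  have h := InfinitePlace.prod_eq_abs_norm (x : K)
  simp only [mult_one, pow_one] at h
  have hx' : (x : K) ≠ 0 := by simpa using hx
  have h1 : ((Ideal.absNorm (Ideal.span {x}) : ℕ) : ℝ) = |((Algebra.norm ℚ (x : K) : ℚ) : ℝ)| := by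
    rw [Ideal.absNorm_span_singleton]
    have h2 : ((Algebra.norm ℤ x : ℤ) : ℚ) = Algebra.norm ℚ (x : K) := Algebra.coe_norm_int x
    rw [← h2, Nat.cast_natAbs]
    push_cast
    rfl
  rw [← Real.log_prod (fun w _ => ?_), h, h1]
  · push_cast
    rfl
  · exact (InfinitePlace.pos_iff.mpr hx').ne'

theorem exists_UD (h : StUnitB) : Nonempty (UD K) := by
  obtain ⟨ε, h1, h2, h3, ⟨NU, h4, h5, h6⟩, h7⟩ := h K
  have hn : (Module.finrank ℚ K : ℝ) ≠ 0 := by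
    have := Module.finrank_pos (R := ℚ) (M := K)
    exact_mod_cast this.ne'
  have h8 : ∀ x : 𝓞 K, ∃ y : Fin (rank K) → ℝ, x ≠ 0 → ∀ w : InfinitePlace K,
      Real.log (w (x : K)) -
      Real.log (Ideal.absNorm (Ideal.span {x})) / (Module.finrank ℚ K : ℝ) =
        ∑ i, y i * Real.log (w ((ε i : (𝓞 K)ˣ) : K)) := by
    intro x
    by_cases hx : x = 0
    · exact ⟨0, fun h => absurd hx h⟩
    obtain ⟨y, hy⟩ := h7 (fun w => Real.log (w (x : K)) -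
      Real.log (Ideal.absNorm (Ideal.span {x})) / (Module.finrank ℚ K : ℝ)) (by
        rw [Finset.sum_sub_distrib, sum_log hx, Finset.sum_const, Finset.card_univ, card_places,
          nsmul_eq_mul, mul_div_cancel₀ _ hn, sub_self])
    exact ⟨y, fun _ => hy⟩
  choose yc hyc using h8
  exact ⟨⟨ε, h1, h2, h3, NU, h4, h5, h6, yc, hyc⟩⟩

lemma UD.ax_yc (U : UD K) (θ : Fin (rank K) → ℝ) {x : 𝓞 K} (hx : x ≠ 0) :
    ax (U.NU θ) (x : K) = cexp (2 * Real.pi * I * ((∑ i, θ i * U.yc x i : ℝ) : ℂ)) := by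
  have h1 : ∑ w, U.NU θ w * Real.log (w (x : K)) = 2 * Real.pi * ∑ i, θ i * U.yc x i := by
    have h2 : ∀ w : InfinitePlace K, Real.log (w (x : K)) = Real.log (Ideal.absNorm (Ideal.span {x})) /
        (Module.finrank ℚ K : ℝ) + ∑ i, U.yc x i * Real.log (w ((U.ε i : (𝓞 K)ˣ) : K)) := fun w => by
      rw [← U.ycs x hx w]; ring
    simp_rw [h2, mul_add]
    rw [Finset.sum_add_distrib, ← Finset.sum_mul, U.NUs, zero_mul, zero_add]
    simp_rw [Finset.mul_sum]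
    rw [Finset.sum_comm]
    refine Finset.sum_congr rfl fun i _ => ?_
    have h3 := U.NUl θ i
    calc ∑ w, U.NU θ w * (U.yc x i * Real.log (w ((U.ε i : (𝓞 K)ˣ) : K))) =
        U.yc x i * ∑ w, U.NU θ w * Real.log (w ((U.ε i : (𝓞 K)ˣ) : K)) := by
          rw [Finset.mul_sum]
          exact Finset.sum_congr rfl fun w _ => by ring
      _ = _ := by rw [h3]; ring
  unfold ax
  rw [h1]
  congr 1
  push_cast
  ring

/-- the norm of the parameter -/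
noncomputable def UD.p (U : UD K) (θ : Fin (rank K) → ℝ) : ℝ := ‖U.NU θ‖

lemma UD.p_le (U : UD K) (θ : Fin (rank K) → ℝ) {V : ℝ} (hV : 0 ≤ V) :
    U.p θ ≤ V ↔ ∀ w, |U.NU θ w| ≤ V := by
  unfold UD.p
  rw [pi_norm_le_iff_of_nonneg hV]
  rfl

lemma UD.p_cont (U : UD K) : Continuous U.p := by
  unfold UD.p
  exact (LinearMap.continuous_of_finiteDimensional U.NU).norm

lemma UD.p_add (U : UD K) (θ θ' : Fin (rank K) → ℝ) : U.p (θ + θ') ≤ U.p θ + U.p θ' := by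
  unfold UD.p
  rw [map_add]; exact norm_add_le _ _

lemma UD.p_smul (U : UD K) (t : ℝ) (θ : Fin (rank K) → ℝ) : U.p (t • θ) = |t| * U.p θ := by
  unfold UD.p
  rw [map_smul, norm_smul, Real.norm_eq_abs]

lemma UD.p_zero (U : UD K) (θ : Fin (rank K) → ℝ) (h : U.p θ = 0) : θ = 0 := by
  unfold UD.p at h
  rw [norm_eq_zero] at h
  funext i
  have h1 := U.NUl θ i
  rw [h] at h1
  simp only [Pi.zero_apply, zero_mul, Finset.sum_const_zero] at h1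
  have hpi := Real.pi_pos
  rw [Pi.zero_apply]
  nlinarith

/-- the unit `ε_i` as an element of the monoid -/
def UD.eT (U : UD K) (𝔮 : Ideal (𝓞 K)) (i : Fin (rank K)) : Tq 𝔮 :=
  ⟨((U.ε i : (𝓞 K)ˣ) : 𝓞 K), U.tp i, by
    rw [Ideal.span_singleton_eq_top.mpr (U.ε i).isUnit, ← Ideal.one_eq_top]
    exact isCoprime_one_left⟩

/-- the class of the unit `ε_i` -/
noncomputable def UD.eG (U : UD K) (𝔮 : Ideal (𝓞 K)) (i : Fin (rank K)) : (𝓞 K ⧸ 𝔮)ˣ :=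
  gq 𝔮 (U.eT 𝔮 i)

/-- the parameters of the characters -/
def UD.PQ (U : UD K) (𝔮 : Ideal (𝓞 K)) (V : ℝ) :
    Set (((𝓞 K ⧸ 𝔮)ˣ →* ℂˣ) × (Fin (rank K) → ℝ)) :=
  {p | (∀ i, ((p.1 (U.eG 𝔮 i) : ℂˣ) : ℂ) * cexp (2 * Real.pi * I * (p.2 i : ℂ)) = 1) ∧
    U.p p.2 ≤ V}

/-- the parameters of a character of the family -/
theorem UD.exists_par (U : UD K) {𝔮 : Ideal (𝓞 K)} {V : ℝ} (hV : 0 ≤ V) (htop : 𝔮 ≠ ⊤)
    {ν : InfinitePlace K → ℝ} {ψ : Ideal (𝓞 K) →*₀ ℂ} (hν : ∀ w, |ν w| ≤ V) (hs : ∑ w, ν w = 0)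
    (h : IsHM K 𝔮 ν ψ) : ∃ p ∈ U.PQ 𝔮 V, U.NU p.2 = ν ∧ ∀ x : Tq 𝔮,
      ψ (Ideal.span {(x : 𝓞 K)}) = ((p.1 (gq 𝔮 x) : ℂˣ) : ℂ) *
        cexp (2 * Real.pi * I * ((∑ i, p.2 i * U.yc (x : 𝓞 K) i : ℝ) : ℂ)) := by
  obtain ⟨χ, hχ⟩ := h.exists_chi htop
  set θ : Fin (rank K) → ℝ :=
    fun i => (∑ w, ν w * Real.log (w ((U.ε i : (𝓞 K)ˣ) : K))) / (2 * Real.pi) with hθ
  have hNU : U.NU θ = ν := U.NUi ν hs
  refine ⟨(χ, θ), ⟨fun i => ?_, ?_⟩, hNU, fun x => ?_⟩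
  · have h1 := hχ (U.eT 𝔮 i)
    have h2 : Ideal.span {((U.eT 𝔮 i : Tq 𝔮) : 𝓞 K)} = 1 := by
      change Ideal.span {((U.ε i : (𝓞 K)ˣ) : 𝓞 K)} = 1
      rw [Ideal.span_singleton_eq_top.mpr (U.ε i).isUnit, ← Ideal.one_eq_top]
    rw [h2, map_one] at h1
    have h3 : ax ν (((U.eT 𝔮 i : Tq 𝔮) : 𝓞 K) : K) = cexp (2 * Real.pi * I * (θ i : ℂ)) := by
      unfold ax
      congr 1
      have h4 : ∑ w, ν w * Real.log (w (((U.eT 𝔮 i : Tq 𝔮) : 𝓞 K) : K)) = 2 * Real.pi * θ i := by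
        rw [hθ]
        change ∑ w, ν w * Real.log (w ((U.ε i : (𝓞 K)ˣ) : K)) = _
        field_simp
      rw [h4]
      push_cast
      ring
    rw [h3] at h1
    exact h1.symm
  · rw [U.p_le _ hV, hNU]; exact hν
  · rw [hχ x, ← hNU, U.ax_yc θ (Tq_ne_zero htop x)]

end

end Pool.Agent.Y767
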