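import Pool.Agent.Y767.HC.NV
import Pool.Agent.Y767.HC.Stm3
import Pool.Agent.Y767.HC.UD
import Pool.Agent.Y772.HC.Fen
import Pool.Agent.Y772.DK.Main

/-! # The L-functions satisfy the axioms `GoodG`, uniformly -/

set_option autoImplicit false
set_option linter.unusedSectionVars false

open NumberField Complex Filter Topology MeasureTheory
open NumberField.Units

namespace Pool.Agent.Y767

open Pool.Agent.Y773 (TPos LI VM cc sg)

/-- vertical shift of the functional equation -/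
theorem FEn.shift {ι : Type} [Fintype ι] {R : ℝ} (hR : 0 < R) {e : ι → ℕ} {ν : ι → ℝ} {F : ℂ → ℂ}
    (h : FEn R e ν F) (W : ℝ) : FEn R e (fun i => ν i + W) (fun z => F (z + W * I)) := by
  have hRc : (R : ℂ) ≠ 0 := by exact_mod_cast hR.ne'
  set u : ℂ := (R : ℂ) ^ (-(W * I : ℂ) / 2) with hu
  have hun : ‖u‖ = 1 := by
    rw [hu, Complex.norm_cpow_eq_rpow_re_of_pos hR]
    simp
  have hG : ∀ s : ℂ, GGn R e (fun i => ν i + W) s = u * GGn R e ν (s + W * I) := by
    intro s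
    unfold GGn
    rw [hu, ← mul_assoc, ← Complex.cpow_add _ _ hRc]
    congr 1
    · congr 1; ring
    · refine Finset.prod_congr rfl fun i _ => ?_
      congr 1
      push_cast
      ring
  have hre : ∀ s : ℂ, (s + W * I).re = s.re := fun s => by simp
  have him : ∀ s : ℂ, (s + W * I).im = s.im + W := fun s => by simp
  have hconj : ∀ s : ℂ, 1 - (starRingEnd ℂ) s + W * I = 1 - (starRingEnd ℂ) (s + W * I) := by
    intro s
    rw [map_add, map_mul, Complex.conj_ofReal, Complex.conj_I]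
    ring
  refine ⟨h.he, ?_, ?_, ?_⟩
  · exact h.diff.comp (by fun_prop)
  · obtain ⟨w, hw, hfe⟩ := h.fe
    refine ⟨u * w * u, by rw [norm_mul, norm_mul, hun, hw]; norm_num, fun s hs => ?_⟩
    have h1 := hfe (s + W * I) (fun i => by rw [him]; have := hs i; intro h2; exact this (by linarith))
    have h2 : u * (starRingEnd ℂ) u = 1 := by
      rw [Complex.mul_conj, Complex.normSq_eq_norm_sq, hun]; simp
    rw [hG, hG, hconj, mul_assoc u, h1, mul_assoc u, map_mul, map_mul, map_mul]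
    linear_combination (-(u * w * ((starRingEnd ℂ) (GGn R e ν (1 - (starRingEnd ℂ) (s + W * I))) *
      (starRingEnd ℂ) (F (1 - (starRingEnd ℂ) (s + W * I)))))) * h2
  · intro a b
    obtain ⟨C, hC⟩ := h.vert a b
    refine ⟨C, fun s h1 h2 h3 => ?_⟩
    have h4 := hC (s + W * I) (by rw [hre]; exact h1) (by rw [hre]; exact h2) (fun i => by
      rw [him]
      have := h3 i
      rwa [show s.im + W + ν i = s.im + (ν i + W) by ring])
    rw [hG, mul_assoc, norm_mul, hun, one_mul]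
    exact h4

/-- two entire functions which agree for `Re s > 1` are equal -/
lemma eq_of_LI {F G : ℂ → ℂ} (hF : Differentiable ℂ F) (hG : Differentiable ℂ G)
    (h : ∀ s : ℂ, 1 < s.re → F s = G s) : F = G := by
  have hF' : AnalyticOnNhd ℂ F Set.univ := hF.differentiableOn.analyticOnNhd isOpen_univ
  have hG' : AnalyticOnNhd ℂ G Set.univ := hG.differentiableOn.analyticOnNhd isOpen_univ
  refine hF'.eq_of_eventuallyEq hG' (z₀ := 2) ?_
  have h1 : {s : ℂ | 1 < s.re} ∈ 𝓝 (2 : ℂ) :=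
    (isOpen_lt continuous_const Complex.continuous_re).mem_nhds (by simp)
  filter_upwards [h1] with s hs
  exact h s hs

section

variable (K : Type) [Field K] [NumberField K] [IsTotallyReal K]

theorem good (V : ℝ) (hV : 0 ≤ V) : ∃ A : ℝ, 1 ≤ A ∧ ∀ 𝔮 : Ideal (𝓞 K), 𝔮 ≠ ⊤ →
    ∀ (ν : InfinitePlace K → ℝ) (ψ : Ideal (𝓞 K) →*₀ ℂ), (∀ w, |ν w| ≤ V) → ∑ w, ν w = 0 →
    IsHecke K 𝔮 ν ψ → ∀ F : ℂ → ℂ, Differentiable ℂ F → (∀ s : ℂ, 1 < s.re → F s = LI ψ s) →
    W388.LV.GoodG (Module.finrank ℚ K) A ((Ideal.absNorm 𝔮 : ℝ) ^ (1 / (Module.finrank ℚ K : ℝ)))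
      (fun z => F (z + ((V + 1 : ℝ) : ℂ) * I))
      (fun m => (cc ψ m * (ArithmeticFunction.vonMangoldt m : ℂ)) *
        (m : ℂ) ^ (-(((V + 1 : ℝ) : ℂ) * I))) := by
  obtain ⟨A₀, hA₀, hD⟩ := Pool.Agent.Y772.DK.t_dirK K
  set W : ℝ := V + 1 with hW
  have hdN : (1 : ℝ) ≤ (Ideal.absNorm (differentIdeal ℤ (𝓞 K)) : ℝ) := by
    have : Ideal.absNorm (differentIdeal ℤ (𝓞 K)) ≠ 0 := by
      rw [Ne, Ideal.absNorm_eq_zero_iff]
      exact differentIdeal_ne_bot
    exact_mod_cast Nat.one_le_iff_ne_zero.mpr this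
  obtain ⟨A₁, hA₁, hfe⟩ := Pool.Agent.Y772.HC.t_fen (InfinitePlace K)
    (Ideal.absNorm (differentIdeal ℤ (𝓞 K)) : ℝ) hdN A₀ hA₀ (2 * W) (by positivity)
  refine ⟨max A₀ A₁, le_max_of_le_left hA₀, fun 𝔮 htop ν ψ hν hs h F hF hFL => ?_⟩
  set n : ℝ := (Module.finrank ℚ K : ℝ) with hn
  have hn0 : 0 < n := by
    have := Module.finrank_pos (R := ℚ) (M := K)
    rw [hn]; exact_mod_cast this
  have hq1 : (1 : ℝ) ≤ (Ideal.absNorm 𝔮 : ℝ) := by
    have : Ideal.absNorm 𝔮 ≠ 0 := by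
      rw [Ne, Ideal.absNorm_eq_zero_iff]; exact h.ne_bot
    exact_mod_cast Nat.one_le_iff_ne_zero.mpr this
  set Q : ℝ := (Ideal.absNorm 𝔮 : ℝ) ^ (1 / n) with hQ
  have hQ1 : 1 ≤ Q := Real.one_le_rpow hq1 (by positivity)
  have hQn : Q ^ Fintype.card (InfinitePlace K) = (Ideal.absNorm 𝔮 : ℝ) := by
    rw [card_places, hQ, ← Real.rpow_natCast, ← Real.rpow_mul (by linarith), ← hn,
      one_div_mul_cancel hn0.ne', Real.rpow_one]
  obtain ⟨e₀, he₀, hM⟩ := h.toIsHM.isModK hs htop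
  have hψ1 : ∀ 𝔞, ‖ψ 𝔞‖ ≤ 1 := hM.norm_le_one
  obtain ⟨d1, d2, d3, d4, d5, d6, d7, -, d8, d9, -⟩ := hD ψ hψ1
  obtain ⟨e, G, hG, hGL⟩ := h.fe hs htop
  have hFG : F = G := eq_of_LI hF hG.diff (fun s hs => by rw [hFL s hs, hGL s hs])
  rw [← hFG] at hG
  have hR : (0 : ℝ) < ((Ideal.absNorm 𝔮 * Ideal.absNorm (differentIdeal ℤ (𝓞 K)) : ℕ) : ℝ) := by
    push_cast
    nlinarith
  have hsh := hG.shift hR W
  have hRe : ((Ideal.absNorm 𝔮 * Ideal.absNorm (differentIdeal ℤ (𝓞 K)) : ℕ) : ℝ) =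
      (Ideal.absNorm (differentIdeal ℤ (𝓞 K)) : ℝ) * Q ^ Fintype.card (InfinitePlace K) := by
    rw [hQn]; push_cast; ring
  rw [hRe] at hsh
  have hre : ∀ s : ℂ, (s + (W : ℂ) * I).re = s.re := fun s => by simp
  have him : ∀ s : ℂ, (s + (W : ℂ) * I).im = s.im + W := fun s => by simp
  have hnz : ∀ s : ℂ, 1 ≤ s.re → 1 ≤ s.im → F (s + (W : ℂ) * I) ≠ 0 := by
    intro s h1 h2
    rcases lt_or_eq_of_le h1 with h3 | h3
    · rw [hFL _ (by rw [hre]; exact h3)]
      exact d3 _ (by rw [hre]; exact h3)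
    · have h4 : s + (W : ℂ) * I = 1 + I * ((s.im + W : ℝ) : ℂ) := by
        apply Complex.ext
        · simp [← h3]
        · simp
      rw [h4]
      exact nonvanish he₀ hs hM hF hFL (by linarith)
  obtain ⟨f1, f2, f3, f4⟩ := hfe Q hQ1 e (fun w => -ν w + W) (fun z => F (z + W * I))
    (fun w => by
      have := abs_le.mp (hν w)
      constructor <;> linarith) hsh
    (fun s h1 => by
      rw [hFL _ (by rw [hre]; linarith)]
      exact d5 _ (by rw [hre]; exact h1)) hnz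
  have hcard : (Fintype.card (InfinitePlace K) : ℝ) = n := by rw [card_places, hn]
  rw [hcard] at f4
  have hA0 : (0 : ℝ) < A₁ := by linarith
  have hAm : 0 < max A₀ A₁ := lt_max_of_lt_left (by linarith)
  have hnorm : ∀ m : ℕ, 0 < m → ‖(m : ℂ) ^ (-((W : ℂ) * I))‖ = 1 := fun m hm => by
    rw [Complex.norm_natCast_cpow_of_pos hm]
    simp
  have hle : ∀ m : ℕ, ‖(cc ψ m * (ArithmeticFunction.vonMangoldt m : ℂ)) *
      (m : ℂ) ^ (-((W : ℂ) * I))‖ * (m : ℝ) ^ (-(7 / 4) : ℝ) ≤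
      ArithmeticFunction.vonMangoldt m * ‖cc ψ m‖ * (m : ℝ) ^ (-(3 / 2) : ℝ) := by
    intro m
    rcases Nat.eq_zero_or_pos m with rfl | hm
    · simp
    rw [norm_mul, hnorm m hm, mul_one, norm_mul, Complex.norm_real,
      Real.norm_of_nonneg ArithmeticFunction.vonMangoldt_nonneg, mul_comm ‖cc ψ m‖]
    refine mul_le_mul_of_nonneg_left ?_
      (mul_nonneg ArithmeticFunction.vonMangoldt_nonneg (norm_nonneg _))
    exact Real.rpow_le_rpow_of_exponent_le (by exact_mod_cast hm) (by norm_num)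
  refine ⟨?_, ?_, ?_, ?_, ?_, ?_, ?_, ?_, ?_, ?_, ?_⟩
  · intro s _
    exact (hF.comp (by fun_prop : Differentiable ℂ (fun z : ℂ => z + (W : ℂ) * I))).analyticAt s
  · intro s h1 h2 h3
    refine (f1 s h1 h2 h3).trans ?_
    have h4 : 1 ≤ Q * s.im := by nlinarith
    exact mul_le_mul (le_max_right _ _) (Real.rpow_le_rpow_of_exponent_le h4 (le_max_right _ _))
      (by positivity) hAm.le
  · intro t _
    have h1 : (1 : ℝ) < ((⟨2, t⟩ : ℂ) + (W : ℂ) * I).re := by rw [hre]; norm_num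
    rw [hFL _ h1]
    refine le_trans ?_ (d6 _ (by rw [hre]))
    exact inv_anti₀ (by linarith) (le_max_left _ _)
  · exact hnz
  · exact f2
  · exact f3
  · intro m hm
    have : ArithmeticFunction.vonMangoldt m = 0 := by
      interval_cases m <;> simp
    rw [this]; simp
  · refine Summable.of_nonneg_of_le (fun m => by positivity) hle d8
  · refine (Summable.tsum_le_tsum hle (Summable.of_nonneg_of_le (fun m => by positivity) hle d8)
      d8).trans (d9.trans (le_max_left _ _))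
  · intro s h1 h2
    have h3 : (1 : ℝ) < (s + (W : ℂ) * I).re := by rw [hre]; exact h1
    have h4 : deriv (fun z => F (z + (W : ℂ) * I)) s = deriv F (s + (W : ℂ) * I) :=
      deriv_comp_add_const _ _ _
    have h5 : deriv F (s + (W : ℂ) * I) = deriv (LI ψ) (s + (W : ℂ) * I) := by
      refine Filter.EventuallyEq.deriv_eq ?_
      have h6 : {z : ℂ | 1 < z.re} ∈ 𝓝 (s + (W : ℂ) * I) :=
        (isOpen_lt continuous_const Complex.continuous_re).mem_nhds h3
      filter_upwards [h6] with z hz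
      exact hFL z hz
    rw [h4, h5, hFL _ h3, d4 _ h3]
    congr 1
    refine tsum_congr fun m => ?_
    rcases Nat.eq_zero_or_pos m with rfl | hm
    · simp
    rw [mul_assoc (cc ψ m * _), ← Complex.cpow_add _ _ (by exact_mod_cast hm.ne')]
    congr 2
    ring
  · intro s h1 h2 h3 h4
    exact (f4 s h1 h2 h3 h4).trans (le_max_right _ _)

end

end Pool.Agent.Y767
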