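import Pool.Agent.Y767.HC.Cont

/-! # No zeros on the line `Re s = 1` -/

set_option autoImplicit false
set_option linter.unusedSectionVars false

open NumberField Complex Filter Topology Set
open Pool.Agent.Y772.DK (LA ee LI_eq_exp ee_le ee_zero term_summable VM_nonneg)

namespace Pool.Agent.Y767

open Pool.Agent.Y773

variable {K : Type} [Field K] [NumberField K]

/-- the square of a character -/
noncomputable def sqh (η : Ideal (𝓞 K) →*₀ ℂ) : Ideal (𝓞 K) →*₀ ℂ where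
  toFun 𝔞 := η 𝔞 * η 𝔞
  map_zero' := by rw [map_zero, mul_zero]
  map_one' := by rw [map_one, mul_one]
  map_mul' 𝔞 𝔟 := by rw [map_mul]; ring

/-- the squared absolute value of a character -/
noncomputable def nsh (η : Ideal (𝓞 K) →*₀ ℂ) : Ideal (𝓞 K) →*₀ ℂ where
  toFun 𝔞 := η 𝔞 * (starRingEnd ℂ) (η 𝔞)
  map_zero' := by rw [map_zero, zero_mul]
  map_one' := by rw [map_one, map_one, mul_one]
  map_mul' 𝔞 𝔟 := by rw [map_mul, map_mul]; ring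

lemma sqh_apply (η : Ideal (𝓞 K) →*₀ ℂ) (𝔞 : Ideal (𝓞 K)) : sqh η 𝔞 = η 𝔞 * η 𝔞 := rfl

lemma nsh_apply (η : Ideal (𝓞 K) →*₀ ℂ) (𝔞 : Ideal (𝓞 K)) :
    nsh η 𝔞 = η 𝔞 * (starRingEnd ℂ) (η 𝔞) := rfl

lemma key_re {z : ℂ} (h : ‖z‖ = 0 ∨ ‖z‖ = 1) :
    0 ≤ 3 * ‖z‖ ^ 2 + 4 * z.re + (z * z).re := by
  rcases h with h | h
  · have : z = 0 := norm_eq_zero.mp h
    rw [this]
    simp
  · have h1 : z.re ^ 2 + z.im ^ 2 = 1 := by
      have := Complex.sq_norm z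
      rw [h, Complex.normSq_apply] at this
      nlinarith
    rw [h, Complex.mul_re]
    nlinarith [sq_nonneg (1 + z.re)]

/-- 3-4-1 -/
theorem tfo {η : Ideal (𝓞 K) →*₀ ℂ} (hη : ∀ 𝔞, ‖η 𝔞‖ = 0 ∨ ‖η 𝔞‖ = 1) {σ : ℝ} (hσ : 1 < σ) (t : ℝ) :
    1 ≤ ‖LI (nsh η) (σ : ℂ)‖ ^ 3 * ‖LI η (σ + I * t)‖ ^ 4 * ‖LI (sqh η) (σ + I * (2 * t))‖ := by
  have h1 : ∀ 𝔞, ‖η 𝔞‖ ≤ 1 := fun 𝔞 => by
    rcases hη 𝔞 with h | h <;> rw [h]
    exact zero_le_one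
  have h2 : ∀ 𝔞, ‖sqh η 𝔞‖ ≤ 1 := fun 𝔞 => by
    rw [sqh_apply, norm_mul]
    exact mul_le_one₀ (h1 𝔞) (norm_nonneg _) (h1 𝔞)
  have h3 : ∀ 𝔞, ‖nsh η 𝔞‖ ≤ 1 := fun 𝔞 => by
    rw [nsh_apply, norm_mul, RCLike.norm_conj]
    exact mul_le_one₀ (h1 𝔞) (norm_nonneg _) (h1 𝔞)
  have s1 : 1 < ((σ : ℂ)).re := by simpa using hσ
  have s2 : 1 < ((σ : ℂ) + I * t).re := by simpa using hσ
  have s3 : 1 < ((σ : ℂ) + I * (2 * t)).re := by simpa using hσ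
  rw [LI_eq_exp _ h3 s1, LI_eq_exp _ h1 s2, LI_eq_exp _ h2 s3, Complex.norm_exp, Complex.norm_exp,
    Complex.norm_exp, ← Real.exp_nat_mul, ← Real.exp_nat_mul, ← Real.exp_add, ← Real.exp_add]
  rw [Real.one_le_exp_iff]
  have t1 := (term_summable (ee_zero (nsh η)) (ee_le _ h3) s1).of_norm
  have t2 := (term_summable (ee_zero η) (ee_le _ h1) s2).of_norm
  have t3 := (term_summable (ee_zero (sqh η)) (ee_le _ h2) s3).of_norm
  have e1 := Complex.hasSum_re t1.hasSum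
  have e2 := Complex.hasSum_re t2.hasSum
  have e3 := Complex.hasSum_re t3.hasSum
  have e4 := ((e1.mul_left ((3 : ℕ) : ℝ)).add (e2.mul_left ((4 : ℕ) : ℝ))).add e3
  refine e4.nonneg fun 𝔞 => ?_
  by_cases h𝔞 : 𝔞 = 0
  · subst h𝔞
    rw [ee_zero, ee_zero, ee_zero]
    simp
  have hN : (Ideal.absNorm 𝔞 : ℂ) ≠ 0 := by
    exact_mod_cast fun h => h𝔞 (Ideal.absNorm_eq_zero_iff.mp h)
  have hNpos : (0 : ℝ) < (Ideal.absNorm 𝔞 : ℝ) := by
    exact_mod_cast Nat.pos_of_ne_zero fun h => h𝔞 (Ideal.absNorm_eq_zero_iff.mp h)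
  set N : ℝ := (Ideal.absNorm 𝔞 : ℝ) with hNd
  have hNc : ((Ideal.absNorm 𝔞 : ℕ) : ℂ) = (N : ℂ) := by rw [hNd]; push_cast; rfl
  set u : ℂ := cexp (-(I * t * Real.log N)) with hu
  have hun : ‖u‖ = 1 := by
    rw [hu]
    have : -(I * t * Real.log N) = ((-(t * Real.log N) : ℝ) : ℂ) * I := by push_cast; ring
    rw [this, Complex.norm_exp_ofReal_mul_I]
  have p1 : ((Ideal.absNorm 𝔞 : ℕ) : ℂ) ^ (-(σ : ℂ)) = ((N ^ (-σ) : ℝ) : ℂ) := by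
    rw [hNc, Complex.ofReal_cpow hNpos.le]
    push_cast
    rfl
  have hNc0 : (N : ℂ) ≠ 0 := by exact_mod_cast hNpos.ne'
  have p2 : ((Ideal.absNorm 𝔞 : ℕ) : ℂ) ^ (-((σ : ℂ) + I * t)) = ((N ^ (-σ) : ℝ) : ℂ) * u := by
    rw [← p1, hNc, neg_add, Complex.cpow_add _ _ hNc0]
    congr 1
    rw [Complex.cpow_def_of_ne_zero hNc0, ← Complex.ofReal_log hNpos.le, hu]
    congr 1
    ring
  have p3 : ((Ideal.absNorm 𝔞 : ℕ) : ℂ) ^ (-((σ : ℂ) + I * (2 * t))) =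
      ((N ^ (-σ) : ℝ) : ℂ) * (u * u) := by
    rw [← p1, hNc, neg_add, Complex.cpow_add _ _ hNc0]
    congr 1
    rw [Complex.cpow_def_of_ne_zero hNc0, ← Complex.ofReal_log hNpos.le, hu, ← Complex.exp_add]
    congr 1
    ring
  rw [p1, p2, p3]
  unfold Pool.Agent.Y772.DK.ee
  set w : ℝ := VM 𝔞 / Real.log (Ideal.absNorm 𝔞) with hw
  have hw0 : 0 ≤ w := div_nonneg (VM_nonneg _) (Real.log_natCast_nonneg _)
  have hr : 0 ≤ N ^ (-σ) := Real.rpow_nonneg hNpos.le _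
  have q1 : ((w : ℂ) * nsh η 𝔞 * ((N ^ (-σ) : ℝ) : ℂ)).re = (w * N ^ (-σ)) * ‖η 𝔞 * u‖ ^ 2 := by
    rw [nsh_apply, Complex.mul_conj, Complex.normSq_eq_norm_sq, norm_mul, hun, mul_one]
    have : ((w : ℂ) * ((‖η 𝔞‖ ^ 2 : ℝ) : ℂ) * ((N ^ (-σ) : ℝ) : ℂ)) =
      ((w * ‖η 𝔞‖ ^ 2 * N ^ (-σ) : ℝ) : ℂ) := by push_cast; ring
    rw [this, Complex.ofReal_re]
    ring
  have q2 : ((w : ℂ) * η 𝔞 * (((N ^ (-σ) : ℝ) : ℂ) * u)).re = (w * N ^ (-σ)) * (η 𝔞 * u).re := by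
    have : (w : ℂ) * η 𝔞 * (((N ^ (-σ) : ℝ) : ℂ) * u) = ((w * N ^ (-σ) : ℝ) : ℂ) * (η 𝔞 * u) := by
      push_cast; ring
    rw [this, Complex.re_ofReal_mul]
  have q3 : ((w : ℂ) * sqh η 𝔞 * (((N ^ (-σ) : ℝ) : ℂ) * (u * u))).re =
      (w * N ^ (-σ)) * ((η 𝔞 * u) * (η 𝔞 * u)).re := by
    have : (w : ℂ) * sqh η 𝔞 * (((N ^ (-σ) : ℝ) : ℂ) * (u * u)) =
        ((w * N ^ (-σ) : ℝ) : ℂ) * ((η 𝔞 * u) * (η 𝔞 * u)) := by
      rw [sqh_apply]; push_cast; ring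
    rw [this, Complex.re_ofReal_mul]
  rw [q1, q2, q3]
  have hz : ‖η 𝔞 * u‖ = 0 ∨ ‖η 𝔞 * u‖ = 1 := by
    rw [norm_mul, hun, mul_one]
    exact hη 𝔞
  have := mul_nonneg (mul_nonneg hw0 hr) (key_re hz)
  push_cast
  linarith

variable [IsTotallyReal K]

lemma kk_sq (e : InfinitePlace K → ℕ) (ν : InfinitePlace K → ℝ) {x : K} (hx : x ≠ 0) :
    kk (fun _ => 0) (fun w => 2 * ν w) x = kk e ν x * kk e ν x := by
  unfold kk
  have h1 : sg (fun _ : InfinitePlace K => 0) x = 1 := by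
    unfold sg
    simp
  have h2 := sg_sq e hx
  have h3 : ax (fun w => -(fun w => 2 * ν w) w) x = ax (fun w => -ν w) x * ax (fun w => -ν w) x := by
    unfold ax
    rw [← Complex.exp_add]
    congr 1
    have : (∑ w, -(fun w => 2 * ν w) w * Real.log (w x) : ℝ) =
        2 * ∑ w, -ν w * Real.log (w x) := by
      rw [Finset.mul_sum]
      exact Finset.sum_congr rfl fun w _ => by ring
    rw [this]
    push_cast
    ring
  rw [h1, h3, one_mul]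
  calc _ = 1 * (ax (fun w => -ν w) x * ax (fun w => -ν w) x) := by rw [one_mul]
    _ = _ := by rw [← h2]; ring

lemma IsModK.sq {𝔪 : Ideal (𝓞 K)} {e : InfinitePlace K → ℕ} {ν : InfinitePlace K → ℝ}
    {η : Ideal (𝓞 K) →*₀ ℂ} (hν : ∑ w, ν w = 0) (h : IsModK 𝔪 (kk e ν) η) :
    IsModK 𝔪 (kk (fun _ => 0) (fun w => 2 * ν w)) (sqh η) where
  kap := kap_kk _ (by rw [← Finset.mul_sum, hν, mul_zero])
  ne_bot := h.ne_bot
  ne_top := h.ne_top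
  supp 𝔞 := by
    rw [← h.supp 𝔞, sqh_apply]
    exact not_congr mul_self_eq_zero
  sig x hx hx1 := by
    rw [kk_sq e ν (by simpa using hx), sqh_apply]
    have h1 := h.sig x hx hx1
    calc _ = (η (Ideal.span {x}) * kk e ν (x : K)) * (η (Ideal.span {x}) * kk e ν (x : K)) := by ring
      _ = _ := by rw [h1, mul_one]

lemma IsModK.ns {𝔪 : Ideal (𝓞 K)} {κ : K → ℂ}
    {η : Ideal (𝓞 K) →*₀ ℂ} (h : IsModK 𝔪 κ η) :
    IsModK 𝔪 (kk (fun _ => 0) (fun _ => (0 : ℝ))) (nsh η) where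
  kap := kap_kk _ (by simp)
  ne_bot := h.ne_bot
  ne_top := h.ne_top
  supp 𝔞 := by
    rw [← h.supp 𝔞, nsh_apply, Complex.mul_conj]
    simp
  sig x hx hx1 := by
    have h1 := h.sig x hx hx1
    have h2 : ‖η (Ideal.span {x})‖ = 1 := by
      have := congrArg norm h1
      rw [norm_mul, h.kap.norm _ (by simpa using hx), mul_one, norm_one] at this
      exact this
    rw [kk_zero, nsh_apply, Complex.mul_conj, Complex.normSq_eq_norm_sq, h2]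
    unfold sg
    simp

/-- **No zeros on the line `Re s = 1`** -/
theorem nonvanish {𝔪 : Ideal (𝓞 K)} {e : InfinitePlace K → ℕ} {ν : InfinitePlace K → ℝ}
    {η : Ideal (𝓞 K) →*₀ ℂ} (he : ∀ w, e w ≤ 1) (hν : ∑ w, ν w = 0)
    (h : IsModK 𝔪 (kk e ν) η) {F : ℂ → ℂ} (hF : Differentiable ℂ F)
    (hFL : ∀ s : ℂ, 1 < s.re → F s = LI η s) {t : ℝ} (ht : t ≠ 0) : F (1 + I * t) ≠ 0 := by
  intro h0
  obtain ⟨G1, hG1, hG1L⟩ := LI_cont (K := K) (e := fun _ => 0) (ν := fun _ => (0 : ℝ))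
    (fun _ => zero_le_one) (by simp) h.ns
  obtain ⟨G3, hG3, hG3L⟩ := LI_cont (K := K) (e := fun _ => 0) (ν := fun w => 2 * ν w)
    (fun _ => zero_le_one) (by rw [← Finset.mul_sum, hν, mul_zero]) (h.sq hν)
  have hη : ∀ 𝔞, ‖η 𝔞‖ = 0 ∨ ‖η 𝔞‖ = 1 := by
    intro 𝔞
    by_cases hc : IsCoprime 𝔞 𝔪
    · exact Or.inr (h.norm_eq_one hc)
    · left
      rw [norm_eq_zero]
      by_contra h1
      exact hc ((h.supp 𝔞).mp h1)
  -- the limits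
  have l0 : Tendsto (fun σ : ℝ => σ) (𝓝[>] 1) (𝓝 1) := tendsto_nhdsWithin_of_tendsto_nhds tendsto_id
  have lc : Tendsto (fun σ : ℝ => (σ : ℂ)) (𝓝[>] 1) (𝓝 1) := by
    have h9 := (Complex.continuous_ofReal.tendsto (1 : ℝ)).comp l0
    rw [Complex.ofReal_one] at h9
    exact h9
  have l1 : Tendsto (fun σ : ℝ => ‖G1 (σ : ℂ)‖ ^ 3) (𝓝[>] 1) (𝓝 (‖G1 1‖ ^ 3)) :=
    (((hG1.continuous.tendsto _).comp lc).norm).pow 3
  have l3 : Tendsto (fun σ : ℝ => ‖G3 ((σ : ℂ) + I * (2 * t)) / ((σ : ℂ) + I * (2 * t) - 1)‖)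
      (𝓝[>] 1) (𝓝 ‖G3 (1 + I * (2 * t)) / (1 + I * (2 * t) - 1)‖) := by
    have hne : (1 : ℂ) + I * (2 * t) - 1 ≠ 0 := by
      rw [add_sub_cancel_left]
      refine mul_ne_zero I_ne_zero (mul_ne_zero two_ne_zero ?_)
      exact_mod_cast ht
    have := lc.add_const (I * (2 * t))
    exact (((hG3.continuous.tendsto _).comp this).div (this.sub_const 1) hne).norm
  have l2 : Tendsto (fun σ : ℝ => ‖F ((σ : ℂ) + I * t) / ((σ : ℂ) - 1)‖ ^ 4) (𝓝[>] 1)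
      (𝓝 (‖deriv F (1 + I * t)‖ ^ 4)) := by
    have hd := (hF (1 + I * t)).hasDerivAt
    rw [hasDerivAt_iff_tendsto_slope] at hd
    have hm : Tendsto (fun σ : ℝ => (σ : ℂ) + I * t) (𝓝[>] 1) (𝓝[≠] (1 + I * t)) := by
      rw [tendsto_nhdsWithin_iff]
      refine ⟨lc.add_const _, ?_⟩
      filter_upwards [self_mem_nhdsWithin] with σ hσ
      intro h1
      have h2 : (σ : ℂ) = 1 := add_right_cancel h1
      have h3 : σ = 1 := by exact_mod_cast h2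
      have h4 : (1 : ℝ) < σ := hσ
      linarith
    refine ((hd.comp hm).norm.pow 4).congr' ?_
    filter_upwards with σ
    simp only [Function.comp_apply, slope_def_field]
    rw [h0, sub_zero]
    congr 3
    ring
  have l4 : Tendsto (fun σ : ℝ => σ - 1) (𝓝[>] 1) (𝓝 0) := by
    have := l0.sub_const 1
    simpa using this
  have l5 := ((l1.mul l2).mul l3).mul l4
  rw [mul_zero] at l5
  have h6 : (1 : ℝ) ≤ 0 := by
    refine ge_of_tendsto l5 ?_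
    filter_upwards [self_mem_nhdsWithin] with σ hσ
    have hσ1 : 1 < σ := hσ
    have hs0 : 0 < σ - 1 := by linarith
    have s1 : 1 < ((σ : ℂ)).re := by simpa using hσ1
    have s2 : 1 < ((σ : ℂ) + I * t).re := by simpa using hσ1
    have s3 : 1 < ((σ : ℂ) + I * (2 * t)).re := by simpa using hσ1
    have h7 := tfo hη hσ1 t
    rw [← hFL _ s2] at h7
    refine h7.trans (le_of_eq ?_)
    have hn : ‖(σ : ℂ) - 1‖ = σ - 1 := by
      rw [← Complex.ofReal_one, ← Complex.ofReal_sub, Complex.norm_real,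
        Real.norm_of_nonneg hs0.le]
    have hne3 : (σ : ℂ) + I * (2 * t) - 1 ≠ 0 := by
      intro h8
      have := congrArg Complex.re h8
      simp at this
      linarith
    have e1 : ‖LI (nsh η) (σ : ℂ)‖ = ‖G1 (σ : ℂ)‖ / (σ - 1) := by
      rw [hG1L _ s1, norm_mul, hn]
      field_simp
    have e3 : ‖LI (sqh η) (σ + I * (2 * t))‖ =
        ‖G3 ((σ : ℂ) + I * (2 * t)) / ((σ : ℂ) + I * (2 * t) - 1)‖ := by
      rw [hG3L _ s3, mul_div_cancel_left₀ _ hne3]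
    rw [e1, e3, norm_div (F _), hn]
    field_simp
  linarith

end Pool.Agent.Y767
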