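import Pool.Agent.Y767.HC.Defs
import Pool.Agent.W388.TW.D0

/-!
# Hecke characters of infinite order: statements of the parts

Owner helper767.  Every `def St... : Prop` is the statement of one part; a proof of it is a theorem
`t_... : St...` in a file of its own.
-/

set_option autoImplicit false

open NumberField Complex Filter Topology MeasureTheory

namespace Pool.Agent.Y767

open Pool.Agent.Y773 (TPos LI VM cc sg)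

/-- FEN : analytic consequences of the functional equation, uniform in `Q ≥ 1`, in the function and
in the shifts `0 ≤ ν_i ≤ M` of the gamma factors (compare `Pool.Agent.Y773.StFEd`, proved in
`Pool.Agent.Y772.FE.Main`; here `left` is needed for `-3/4 ≤ Re s`). -/
def StFEn : Prop := ∀ (ι : Type) [Fintype ι] [Nonempty ι], ∀ (N : ℝ), 1 ≤ N → ∀ (B : ℝ), 1 ≤ B →
  ∀ (M : ℝ), 0 ≤ M →
  ∃ A : ℝ, 1 ≤ A ∧ ∀ (Q : ℝ), 1 ≤ Q → ∀ (e : ι → ℕ) (ν : ι → ℝ) (F : ℂ → ℂ),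
    (∀ i, 0 ≤ ν i ∧ ν i ≤ M) →
    FEn (N * Q ^ Fintype.card ι) e ν F →
    (∀ s : ℂ, 3 / 2 ≤ s.re → ‖F s‖ ≤ B) →
    (∀ s : ℂ, 1 ≤ s.re → 1 ≤ s.im → F s ≠ 0) →
    (∀ s : ℂ, (1 / 16 : ℝ) ≤ s.re → s.re ≤ 4 → 1 ≤ s.im → ‖F s‖ ≤ A * (Q * s.im) ^ A) ∧
    (∀ s : ℂ, s.re ≤ 0 → 1 ≤ s.im → F s ≠ 0) ∧
    (∀ s : ℂ, 0 < s.re → s.re < 1 → 1 ≤ s.im →
      analyticOrderAt F (1 - (starRingEnd ℂ) s) = analyticOrderAt F s) ∧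
    (∀ s : ℂ, -3 / 4 ≤ s.re → s.re ≤ 1 / 2 → 1 ≤ s.im → F s ≠ 0 →
      ‖deriv F s / F s + (((Fintype.card ι : ℝ) * Real.log (Q * s.im) : ℝ) : ℂ) +
        (starRingEnd ℂ) (deriv F (1 - (starRingEnd ℂ) s) / F (1 - (starRingEnd ℂ) s))‖ ≤ A)

/-- `√(∑_{N(𝔞) = n} VM(𝔞)²) / Λ(n)` -/
noncomputable def cK (K : Type) [Field K] [NumberField K] (n : ℕ) : ℂ :=
  ((Real.sqrt (∑ᶠ 𝔞 ∈ {𝔞 : Ideal (𝓞 K) | Ideal.absNorm 𝔞 = n}, VM 𝔞 ^ 2) /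
    ArithmeticFunction.vonMangoldt n : ℝ) : ℂ)

/-- MER : Mertens' theorem for prime ideals. -/
def StMer : Prop := ∀ (K : Type) [Field K] [NumberField K], W388.SelE (cK K)

/-- BES : Bessel's inequality on `(G × ℝ^r) / ⟨(ε_i, e_i)⟩`. -/
def StBes : Prop := ∀ (r : ℕ) (G : Type) [CommGroup G] [Fintype G] (ε : Fin r → G) (ρ : ℝ)
  (g : (Fin r → ℝ) → ℂ), Continuous g → (∀ z, (∃ i, ρ < |z i|) → g z = 0) →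
  ∀ (X : Type) (s : Finset X) (γ : X → G) (y : X → Fin r → ℝ),
    (∀ x ∈ s, ∀ x' ∈ s, ∀ m : Fin r → ℤ, γ x * ∏ i, ε i ^ m i = γ x' →
      (∀ i, |y x i + m i - y x' i| ≤ 2 * ρ) → x = x' ∧ m = 0) →
  ∀ (P : Finset ((G →* ℂˣ) × (Fin r → ℝ))),
    (∀ p ∈ P, ∀ i, ((p.1 (ε i) : ℂˣ) : ℂ) * cexp (2 * Real.pi * I * (p.2 i : ℂ)) = 1) →
  ∀ c : X → ℂ,
    ∑ p ∈ P, ‖∫ z : Fin r → ℝ, g z * cexp (-(2 * Real.pi * I * ((∑ i, p.2 i * z i : ℝ) : ℂ)))‖ ^ 2 *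
      ‖∑ x ∈ s, c x * ((p.1 (γ x) : ℂˣ) : ℂ) *
        cexp (2 * Real.pi * I * ((∑ i, p.2 i * y x i : ℝ) : ℂ))‖ ^ 2 ≤
    Fintype.card G * (∫ z : Fin r → ℝ, ‖g z‖ ^ 2) * ∑ x ∈ s, ‖c x‖ ^ 2

/-- BUMP : a function of compact support whose Fourier transform majorises a compact set. -/
def StBump : Prop := ∀ (r : ℕ) (B : Set (Fin r → ℝ)), IsCompact B → ∀ δ : ℝ, 0 < δ →
  ∃ (ρ : ℝ) (g : (Fin r → ℝ) → ℂ), Continuous g ∧ (∀ z, (∃ i, ρ < |z i|) → g z = 0) ∧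
    (∀ θ ∈ B, 1 ≤ ‖∫ z : Fin r → ℝ, g z *
      cexp (-(2 * Real.pi * I * ((∑ i, θ i * z i : ℝ) : ℂ)))‖ ^ 2) ∧
    ∫ z : Fin r → ℝ, ‖g z‖ ^ 2 ≤ (volume B).toReal + δ

/-- SIG : the signature of a Hecke character. -/
def StSigN : Prop := ∀ (K : Type) [Field K] [NumberField K] [IsTotallyReal K] (𝔣 : Ideal (𝓞 K))
  (ν : InfinitePlace K → ℝ) (ψ : Ideal (𝓞 K) →*₀ ℂ), 𝔣 ≠ ⊥ →
  (∀ x : 𝓞 K, x - 1 ∈ 𝔣 → TPos K x → ψ (Ideal.span {x}) = ax ν (x : K)) →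
    ∃ e : InfinitePlace K → ℕ, (∀ w, e w ≤ 1) ∧
      ∀ x : 𝓞 K, x ≠ 0 → x - 1 ∈ 𝔣 → ψ (Ideal.span {x}) = sg e (x : K) * ax ν (x : K)

end Pool.Agent.Y767
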