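import Pool.Agent.Y767.HC.Stm

/-!
# Hecke characters of infinite order: statements of the parts, II

Owner helper767.
-/

set_option autoImplicit false

open NumberField Complex Filter Topology MeasureTheory
open NumberField.Units

namespace Pool.Agent.Y767

open Pool.Agent.Y773 (TPos LI VM cc sg)

/-- UNIQ : the infinity type is determined by the values of the character. -/
def StUniq : Prop := ∀ (K : Type) [Field K] [NumberField K] [IsTotallyReal K] (𝔣 : Ideal (𝓞 K))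
  (μ : InfinitePlace K → ℝ), 𝔣 ≠ ⊥ →
  (∀ x : 𝓞 K, x - 1 ∈ 𝔣 → TPos K x → ax μ (x : K) = 1) → μ = 0

/-- UNITB : a basis of the group of totally positive units, and the coordinates it defines. -/
def StUnitB : Prop := ∀ (K : Type) [Field K] [NumberField K] [IsTotallyReal K],
  ∃ ε : Fin (rank K) → (𝓞 K)ˣ, (∀ i, TPos K ((ε i : (𝓞 K)ˣ) : 𝓞 K)) ∧
    (∀ u : (𝓞 K)ˣ, TPos K (u : 𝓞 K) → ∃ m : Fin (rank K) → ℤ, u = ∏ i, ε i ^ m i) ∧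
    (∀ m : Fin (rank K) → ℤ, ∏ i, ε i ^ m i = 1 → m = 0) ∧
    (∃ NU : (Fin (rank K) → ℝ) →ₗ[ℝ] (InfinitePlace K → ℝ),
      (∀ θ, ∑ w, NU θ w = 0) ∧
      (∀ θ i, ∑ w, NU θ w * Real.log (w ((ε i : (𝓞 K)ˣ) : K)) = 2 * Real.pi * θ i) ∧
      (∀ ν : InfinitePlace K → ℝ, ∑ w, ν w = 0 →
        NU (fun i => (∑ w, ν w * Real.log (w ((ε i : (𝓞 K)ˣ) : K))) / (2 * Real.pi)) = ν)) ∧
    (∀ v : InfinitePlace K → ℝ, ∑ w, v w = 0 → ∃ y : Fin (rank K) → ℝ,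
      ∀ w, v w = ∑ i, y i * Real.log (w ((ε i : (𝓞 K)ˣ) : K)))

/-- LAT : points of a shifted lattice in a ball of a norm. -/
def StLat : Prop := ∀ (r : ℕ) (p : (Fin r → ℝ) → ℝ), Continuous p →
  (∀ θ θ', p (θ + θ') ≤ p θ + p θ') → (∀ (t : ℝ) θ, p (t • θ) = |t| * p θ) →
  (∀ θ, p θ = 0 → θ = 0) →
  (volume {θ | p θ ≤ 1} ≠ ⊤ ∧ 0 < (volume {θ | p θ ≤ 1}).toReal) ∧
  (∀ V : ℝ, 0 ≤ V → IsCompact {θ | p θ ≤ V}) ∧
  (∀ V : ℝ, 0 ≤ V → (volume {θ | p θ ≤ V}).toReal = V ^ r * (volume {θ | p θ ≤ 1}).toReal) ∧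
  ∃ c : ℝ, 0 ≤ c ∧ ∀ (θ₀ : Fin r → ℝ) (V : ℝ), c ≤ V →
    {m : Fin r → ℤ | p (fun i => θ₀ i + m i) ≤ V}.Finite ∧
    (V - c) ^ r * (volume {θ | p θ ≤ 1}).toReal ≤
      (Nat.card {m : Fin r → ℤ | p (fun i => θ₀ i + m i) ≤ V} : ℝ)

end Pool.Agent.Y767
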