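import Pool.Agent.Y773.HK.Cls
import Pool.Agent.Y767.HC.Defs

/-! # The Mellin transform of the theta series: unfolding, infinity type `ν`
(adapted from `Pool.Agent.Y773.HK.Unf2` of helper773) -/

set_option autoImplicit false
set_option linter.unusedSectionVars false

open NumberField Complex Filter Topology MeasureTheory Set
open NumberField.Units NumberField.Units.dirichletUnitTheorem

namespace Pool.Agent.Y767

open Pool.Agent.Y773

section gen

variable {ι : Type} [Fintype ι]

/-- the phase `exp(-i ∑ ν_w y_w / 2)` -/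
noncomputable def ph (ν : ι → ℝ) (y : ι → ℝ) : ℂ :=
  cexp (-(I * ((∑ w, ν w * y w : ℝ) : ℂ) / 2))

lemma norm_ph (ν y : ι → ℝ) : ‖ph ν y‖ = 1 := by
  unfold ph
  have : (-(I * ((∑ w, ν w * y w : ℝ) : ℂ) / 2)) = ((-(∑ w, ν w * y w) / 2 : ℝ) : ℂ) * I := by
    push_cast
    ring
  rw [this, Complex.norm_exp_ofReal_mul_I]

lemma continuous_ph (ν : ι → ℝ) : Continuous (ph ν) := by
  unfold ph
  fun_prop

lemma ph_add (ν y z : ι → ℝ) : ph ν (fun w => y w + z w) = ph ν y * ph ν z := by
  unfold ph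
  rw [← Complex.exp_add]
  congr 1
  have : (∑ w, ν w * (y w + z w) : ℝ) = (∑ w, ν w * y w) + ∑ w, ν w * z w := by
    rw [← Finset.sum_add_distrib]
    exact Finset.sum_congr rfl fun w _ => by ring
  rw [this]
  push_cast
  ring

lemma ph_neg_neg (ν y : ι → ℝ) : ph (fun w => -ν w) (fun w => -y w) = ph ν y := by
  unfold ph
  have : (∑ w, -ν w * -y w : ℝ) = ∑ w, ν w * y w :=
    Finset.sum_congr rfl fun w _ => by ring
  rw [this]

end gen

section ax

variable {K : Type} [Field K] [NumberField K]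

lemma norm_ax (ν : InfinitePlace K → ℝ) (x : K) : ‖ax ν x‖ = 1 := by
  unfold ax
  rw [mul_comm, Complex.norm_exp_ofReal_mul_I]

lemma ax_ne (ν : InfinitePlace K → ℝ) (x : K) : ax ν x ≠ 0 := Complex.exp_ne_zero _

lemma ax_mul (ν : InfinitePlace K → ℝ) {x y : K} (hx : x ≠ 0) (hy : y ≠ 0) :
    ax ν (x * y) = ax ν x * ax ν y := by
  unfold ax
  rw [← Complex.exp_add, ← mul_add, ← Complex.ofReal_add, ← Finset.sum_add_distrib]
  congr 3
  refine Finset.sum_congr rfl fun w _ => ?_
  rw [map_mul, Real.log_mul ((map_ne_zero w).mpr hx) ((map_ne_zero w).mpr hy)]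
  ring

lemma ax_one (ν : InfinitePlace K → ℝ) : ax ν (1 : K) = 1 := by
  unfold ax
  simp

lemma ax_neg (ν : InfinitePlace K → ℝ) (x : K) : ax (fun w => -ν w) x = (ax ν x)⁻¹ := by
  unfold ax
  rw [← Complex.exp_neg]
  congr 1
  have : (∑ w, -ν w * Real.log (w x) : ℝ) = -(∑ w, ν w * Real.log (w x)) := by
    rw [← Finset.sum_neg_distrib]
    exact Finset.sum_congr rfl fun w _ => by ring
  rw [this]
  push_cast
  ring

lemma ax_neg_mul (ν : InfinitePlace K → ℝ) (x : K) : ax (fun w => -ν w) x * ax ν x = 1 := by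
  rw [ax_neg, inv_mul_cancel₀ (ax_ne ν x)]

lemma conj_ax (ν : InfinitePlace K → ℝ) (x : K) :
    (starRingEnd ℂ) (ax ν x) = ax (fun w => -ν w) x := by
  rw [ax_neg, Complex.inv_def, ← Complex.sq_norm, norm_ax]
  simp

end ax

/-- the integrand -/
noncomputable def Fxn {K : Type} [Field K] [NumberField K] (e : InfinitePlace K → ℕ)
    (ν : InfinitePlace K → ℝ) (s : ℂ) (b : InfinitePlace K → ℝ) (p : PP K) : ℂ :=
  ((G0 e (fun w => Real.exp (el K p w / 2) * b w) : ℝ) : ℂ) *
    cexp (-(I * ((∑ w, ν w * (el K p w / 2 + Real.log (b w)) : ℝ) : ℂ))) *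
    cexp (Module.finrank ℚ K * s * p.1 / 2)

variable {K : Type} [Field K] [NumberField K] [IsTotallyReal K]

lemma norm_Fxn_eq (e : InfinitePlace K → ℕ) (ν : InfinitePlace K → ℝ) (s : ℂ)
    (b : InfinitePlace K → ℝ) (p : PP K) : ‖Fxn e ν s b p‖ = ‖Fx e s b p‖ := by
  unfold Fxn Fx
  rw [norm_mul, norm_mul, norm_mul]
  have : ‖cexp (-(I * ((∑ w, ν w * (el K p w / 2 + Real.log (b w)) : ℝ) : ℂ)))‖ = 1 := by
    rw [← mul_neg, ← Complex.ofReal_neg, mul_comm, Complex.norm_exp_ofReal_mul_I]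
  rw [this, mul_one]

lemma continuous_Fxn (e : InfinitePlace K → ℕ) (ν : InfinitePlace K → ℝ) (s : ℂ)
    (b : InfinitePlace K → ℝ) : Continuous (Fxn e ν s b) := by
  unfold Fxn
  have h1 : Continuous (el K) := (el K).continuous_of_finiteDimensional
  refine ((Complex.continuous_ofReal.comp ((continuous_G0 e).comp
    (continuous_pi fun w => ?_))).mul ?_).mul (by fun_prop)
  · exact (Real.continuous_exp.comp (((continuous_apply w).comp h1).div_const 2)).mul
      continuous_const
  · refine Complex.continuous_exp.comp ?_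
    refine (continuous_const.mul (Complex.continuous_ofReal.comp ?_)).neg
    refine continuous_finsetSum _ fun w _ => continuous_const.mul ?_
    exact (((continuous_apply w).comp h1).div_const 2).add continuous_const

/-- the total integral -/
lemma int_Fxn (K : Type) [Field K] [NumberField K] [IsTotallyReal K] : ∃ c : ℝ, 0 < c ∧
    (∀ (e : InfinitePlace K → ℕ) (s : ℂ), 0 < s.re → ∀ b : InfinitePlace K → ℝ, (∀ w, 0 < b w) →
      Integrable (Fx e s b) ∧
      ∫ p, Fx e s b p = c * ((∏ w, (b w : ℂ) ^ (-s)) * ∏ w, Complex.Gammaℝ (s + e w))) ∧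
    ∀ (e : InfinitePlace K → ℕ) (ν : InfinitePlace K → ℝ) (s : ℂ), 0 < s.re →
      ∀ b : InfinitePlace K → ℝ, (∀ w, 0 < b w) →
      Integrable (Fxn e ν s b) ∧
      ∫ p, Fxn e ν s b p = c * ((∏ w, (b w : ℂ) ^ (-s)) *
        ∏ w, Complex.Gammaℝ (s - I * ν w + e w)) := by
  have := isHaar_PP K
  obtain ⟨c, hc, h1, -, h3⟩ := exists_vol_gen (volume : Measure (PP K))
    (volume : Measure (InfinitePlace K → ℝ)) (elE K)
  have key : ∀ (e : InfinitePlace K → ℕ) (ν : InfinitePlace K → ℝ) (s : ℂ), 0 < s.re →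
      ∀ b : InfinitePlace K → ℝ, (∀ w, 0 < b w) →
      Integrable (Fxn e ν s b) ∧
      ∫ p, Fxn e ν s b p = c * ((∏ w, (b w : ℂ) ^ (-s)) *
        ∏ w, Complex.Gammaℝ (s - I * ν w + e w)) := by
    intro e ν s hs b hb
    set f : (InfinitePlace K → ℝ) → ℂ := fun y =>
      ∏ w, (cexp (-(I * (ν w * Real.log (b w) : ℝ))) *
        (((g0 (e w) (Real.exp (y w / 2) * b w) : ℝ) : ℂ) * cexp ((s - I * ν w) * y w / 2))) with hf
    have hF : Fxn e ν s b = fun p => f (elE K p) := by
      funext p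
      simp only [hf, Fxn]
      rw [Finset.prod_mul_distrib, Finset.prod_mul_distrib, ← Complex.exp_sum, ← Complex.exp_sum,
        elE_apply]
      have h4 := sum_el K p
      have h5 : (∑ w : InfinitePlace K, (el K p w : ℂ)) = ((Module.finrank ℚ K * p.1 : ℝ) : ℂ) := by
        rw [← h4]
        push_cast
        rfl
      have hG : ((G0 e (fun w => Real.exp (el K p w / 2) * b w) : ℝ) : ℂ) =
          ∏ w, ((g0 (e w) (Real.exp (el K p w / 2) * b w) : ℝ) : ℂ) := by
        unfold G0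
        push_cast
        rfl
      rw [hG]
      have h6 : cexp (-(I * ((∑ w, ν w * (el K p w / 2 + Real.log (b w)) : ℝ) : ℂ))) *
          cexp (Module.finrank ℚ K * s * p.1 / 2) =
          cexp (∑ w, -(I * ((ν w * Real.log (b w) : ℝ) : ℂ))) *
            cexp (∑ w, (s - I * ν w) * (el K p w) / 2) := by
        rw [← Complex.exp_add, ← Complex.exp_add]
        congr 1
        have e1 : (∑ w, (s - I * ν w) * (el K p w : ℂ) / 2) =
            s * (∑ w : InfinitePlace K, (el K p w : ℂ)) / 2 -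
              I * ∑ w, (ν w : ℂ) * (el K p w / 2) := by
          rw [Finset.mul_sum, Finset.mul_sum, Finset.sum_div, ← Finset.sum_sub_distrib]
          exact Finset.sum_congr rfl fun w _ => by ring
        rw [e1, h5]
        push_cast
        rw [Finset.sum_neg_distrib, ← Finset.mul_sum]
        have e2 : ∑ w, (ν w : ℂ) * ((el K p w : ℂ) / 2 + (Real.log (b w) : ℂ)) =
            ∑ w, (ν w : ℂ) * (el K p w / 2) + ∑ w, (ν w : ℂ) * (Real.log (b w) : ℂ) := by
          rw [← Finset.sum_add_distrib]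
          exact Finset.sum_congr rfl fun w _ => by ring
        rw [e2]
        ring
      rw [mul_assoc, h6]
      ring
    have hre : ∀ w, 0 < (s - I * ν w).re := by
      intro w
      simp [hs]
    have hint : Integrable f := by
      apply Integrable.fintype_prod (f := fun w (v : ℝ) =>
        cexp (-(I * (ν w * Real.log (b w) : ℝ))) *
        (((g0 (e w) (Real.exp (v / 2) * b w) : ℝ) : ℂ) * cexp ((s - I * ν w) * v / 2)))
      intro w
      exact (local_int (hre w) (hb w)).1.const_mul _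
    rw [hF]
    refine ⟨h3 f hint, ?_⟩
    rw [h1 f, hf, integral_fintype_prod_volume_eq_prod (fun w (v : ℝ) =>
        cexp (-(I * (ν w * Real.log (b w) : ℝ))) *
        (((g0 (e w) (Real.exp (v / 2) * b w) : ℝ) : ℂ) * cexp ((s - I * ν w) * v / 2))),
        ← Finset.prod_mul_distrib]
    congr 1
    refine Finset.prod_congr rfl fun w _ => ?_
    rw [integral_const_mul, (local_int (hre w) (hb w)).2]
    have hbw : (b w : ℂ) ≠ 0 := by exact_mod_cast (hb w).ne'
    have h7 : cexp (-(I * (ν w * Real.log (b w) : ℝ))) * (b w : ℂ) ^ (-(s - I * ν w)) =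
        (b w : ℂ) ^ (-s) := by
      rw [Complex.cpow_def_of_ne_zero hbw, Complex.cpow_def_of_ne_zero hbw, ← Complex.exp_add,
        ← Complex.ofReal_log (hb w).le]
      congr 1
      push_cast
      ring
    rw [← mul_assoc, h7]
  refine ⟨c, hc, fun e s hs b hb => ?_, key⟩
  have h0 := key e (fun _ => 0) s hs b hb
  have hF0 : Fxn e (fun _ => 0) s b = Fx e s b := by
    funext p
    unfold Fxn Fx
    simp
  rw [hF0] at h0
  simpa using h0

lemma Fxn_unit (e : InfinitePlace K → ℕ) (ν : InfinitePlace K → ℝ) (s : ℂ) (J : PIdl K)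
    (ζ : torsion K) (m : Fin (rank K) → ℤ) (p : PP K) :
    Fxn e ν s (av (xE K (J, (ζ, m))).1) p = Fxn e ν s (av (gen J)) (p.1, p.2 + Pool.Agent.Y773.lp m) := by
  have h0 : ∀ w, av (xE K (J, (ζ, m))).1 w =
      Real.exp (∑ i, (m i : ℝ) * Real.log (w ((fundSystem K i : (𝓞 K)ˣ) : K))) * av (gen J) w := by
    intro w
    unfold av
    rw [xE_apply]
    have : (((unE K (ζ, m) : (𝓞 K)ˣ) * gen J : 𝓞 K) : K) =
      ((unE K (ζ, m) : (𝓞 K)ˣ) : K) * (gen J : K) := map_mul (algebraMap (𝓞 K) K) _ _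
    rw [this, map_mul, place_unE]
  have h2 : ∀ w, el K (p.1, p.2 + Pool.Agent.Y773.lp m) w = el K p w +
      2 * ∑ i, (m i : ℝ) * Real.log (w ((fundSystem K i : (𝓞 K)ˣ) : K)) := by
    intro w
    simp only [el, LinearMap.coe_mk, AddHom.coe_mk, Pi.add_apply, Pool.Agent.Y773.lp, add_mul,
      Finset.sum_add_distrib]
    have h2 : ∑ i, (m i : ℝ) * (2 * Real.log (w ((fundSystem K i : (𝓞 K)ˣ) : K))) =
        2 * ∑ i, (m i : ℝ) * Real.log (w ((fundSystem K i : (𝓞 K)ˣ) : K)) := by
      rw [Finset.mul_sum]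
      exact Finset.sum_congr rfl fun i _ => by ring
    rw [h2]
    ring
  unfold Fxn
  have h3 : (fun w => Real.exp (el K p w / 2) * av (xE K (J, (ζ, m))).1 w) =
      fun w => Real.exp (el K (p.1, p.2 + Pool.Agent.Y773.lp m) w / 2) * av (gen J) w := by
    funext w
    rw [h0, h2, ← mul_assoc, ← Real.exp_add]
    congr 2
    ring
  have h4 : (∑ w, ν w * (el K p w / 2 + Real.log (av (xE K (J, (ζ, m))).1 w))) =
      ∑ w, ν w * (el K (p.1, p.2 + Pool.Agent.Y773.lp m) w / 2 + Real.log (av (gen J) w)) := by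
    refine Finset.sum_congr rfl fun w _ => ?_
    rw [h0, h2, Real.log_mul (Real.exp_pos _).ne' (av_pos (gen_ne_zero J) w).ne', Real.log_exp]
    ring
  rw [h3, h4]

end Pool.Agent.Y767
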